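import Pool.Agent.X106.DP.Cyc

/-!
# Multipliers for outer functions
-/

set_option autoImplicit false

namespace Pool.Agent.X106.DP
open MeasureTheory Filter Topology Complex Set
open scoped ENNReal


/-- Herglotz integral of a real function on the circle -/
noncomputable def HR (w : ℂ → ℝ) (z : ℂ) : ℂ :=
  Real.circleAverage (fun ζ => herglotzRieszKernel 0 z ζ • ((w ζ : ℝ) : ℂ)) 0 1

lemma ci_ofReal {w : ℂ → ℝ} (hw : CircleIntegrable w 0 1) :
    CircleIntegrable (fun ζ => ((w ζ : ℝ) : ℂ)) 0 1 := by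
  simp only [CircleIntegrable, intervalIntegrable_iff] at hw ⊢
  exact Complex.ofRealCLM.integrable_comp hw

lemma ci_ker {w : ℂ → ℝ} (hw : CircleIntegrable w 0 1) {z : ℂ} (hz : z ∈ (Metric.ball (0 : ℂ) 1)) :
    CircleIntegrable (fun ζ => herglotzRieszKernel 0 z ζ • ((w ζ : ℝ) : ℂ)) 0 1 :=
  (ci_ofReal hw).continuousOn_smul (continuousOn_herglotzRieszKernel_sphere hz)

lemma HR_diff {w : ℂ → ℝ} (hw : CircleIntegrable w 0 1) : DifferentiableOn ℂ (HR w) (Metric.ball (0 : ℂ) 1) :=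
  differentiableOn_circleAverage_herglotzRieszKernel_smul (ci_ofReal hw)

lemma HR_add {v w : ℂ → ℝ} (hv : CircleIntegrable v 0 1) (hw : CircleIntegrable w 0 1)
    {z : ℂ} (hz : z ∈ (Metric.ball (0 : ℂ) 1)) : HR (fun ζ => v ζ + w ζ) z = HR v z + HR w z := by
  unfold HR
  rw [← Real.circleAverage_fun_add (ci_ker hv hz) (ci_ker hw hz)]
  congr 1
  funext ζ
  push_cast
  rw [smul_add]

lemma HR_re {w : ℂ → ℝ} (hw : CircleIntegrable w 0 1) {z : ℂ} (hz : z ∈ (Metric.ball (0 : ℂ) 1)) :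
    (HR w z).re = Real.circleAverage ((Complex.re ∘ herglotzRieszKernel 0 z) • w) 0 1 :=
  re_circleAverage_herglotzRieszKernel_smul hw hz

lemma HR_const (b : ℝ) {z : ℂ} (hz : z ∈ (Metric.ball (0 : ℂ) 1)) :
    Real.circleAverage ((Complex.re ∘ herglotzRieszKernel 0 z) • (fun _ => b)) 0 1 = b := by
  have h1 := DiffContOnCl.circleAverage_re_herglotzRieszKernel_smul (E := ℂ) (f := fun _ => (b : ℂ))
    (c := 0) (R := 1) (w := z) diffContOnCl_const hz
  have hci : CircleIntegrable ((Complex.re ∘ herglotzRieszKernel 0 z) • (fun _ => (b : ℂ))) 0 1 := by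
    apply CircleIntegrable.continuousOn_smul (circleIntegrable_const _ _ _)
    exact Complex.continuous_re.comp_continuousOn (continuousOn_herglotzRieszKernel_sphere hz)
  have h2 := Complex.reCLM.circleAverage_comp_comm hci
  rw [h1] at h2
  have h3 : ((Complex.reCLM : ℂ → ℝ) ∘ ((Complex.re ∘ herglotzRieszKernel 0 z) • (fun _ : ℂ => (b : ℂ))))
      = (Complex.re ∘ herglotzRieszKernel 0 z) • (fun _ : ℂ => b) := by
    funext ζ
    simp
  rw [h3] at h2
  simpa using h2

lemma ker_nonneg {z : ℂ} (hz : z ∈ (Metric.ball (0 : ℂ) 1)) {ζ : ℂ} (hζ : ζ ∈ Metric.sphere (0 : ℂ) 1) :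
    0 ≤ (herglotzRieszKernel 0 z ζ).re := by
  have h := le_re_herglotzRieszKernel hζ hz
  refine le_trans ?_ h
  have hz1 : ‖z‖ < 1 := by simpa using hz
  rw [sub_zero]
  apply div_nonneg (by linarith) (by linarith [norm_nonneg z])

lemma HR_re_le {w : ℂ → ℝ} (hw : CircleIntegrable w 0 1) {z : ℂ} (hz : z ∈ (Metric.ball (0 : ℂ) 1)) {b : ℝ}
    (hb : ∀ ζ, w ζ ≤ b) : (HR w z).re ≤ b := by
  rw [HR_re hw hz, ← HR_const b hz]
  have hk : ContinuousOn (Complex.re ∘ herglotzRieszKernel 0 z) (Metric.sphere 0 |1|) :=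
    Complex.continuous_re.comp_continuousOn (continuousOn_herglotzRieszKernel_sphere hz)
  apply Real.circleAverage_mono (hw.continuousOn_smul hk)
    ((circleIntegrable_const b 0 1).continuousOn_smul hk)
  intro ζ hζ
  have hζ' : ζ ∈ Metric.sphere (0 : ℂ) 1 := by simpa using hζ
  simp only [Pi.smul_apply', Function.comp_apply, smul_eq_mul]
  exact mul_le_mul_of_nonneg_left (hb ζ) (ker_nonneg hz hζ')

lemma HR_zero {w : ℂ → ℝ} : HR w 0 = ((Real.circleAverage w 0 1 : ℝ) : ℂ) := by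
  have h1 : HR w 0 = Real.circleAverage (fun ζ => ((w ζ : ℝ) : ℂ)) 0 1 := by
    unfold HR
    apply Real.circleAverage_congr_sphere
    intro ζ hζ
    have hζ1 : ‖ζ‖ = 1 := by simpa using hζ
    have hζ0 : ζ ≠ 0 := by
      intro h; rw [h] at hζ1; simp at hζ1
    simp [herglotzRieszKernel_def, hζ0]
  rw [h1]
  unfold Real.circleAverage
  rw [intervalIntegral.integral_ofReal]
  simp

/-- dominated convergence for circle averages of `min (j + w) 0` -/
lemma avg_tendsto {w : ℂ → ℝ} (hw : CircleIntegrable w 0 1) :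
    Tendsto (fun j : ℕ => Real.circleAverage (fun ζ => min ((j : ℝ)) (-w ζ) + w ζ) 0 1) atTop (𝓝 0) := by
  unfold Real.circleAverage
  have h0 : (0 : ℝ) = (2 * Real.pi)⁻¹ • ∫ θ in (0:ℝ)..2 * Real.pi, (0 : ℝ) := by simp
  suffices hs : Tendsto (fun j : ℕ => ∫ θ in (0:ℝ)..2 * Real.pi,
      (min ((j : ℝ)) (-w (circleMap 0 1 θ)) + w (circleMap 0 1 θ))) atTop
      (𝓝 (∫ θ in (0:ℝ)..2 * Real.pi, (0 : ℝ))) by
    have := hs.const_smul ((2 * Real.pi)⁻¹)
    rw [← h0] at this
    exact this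
  have hw' : IntervalIntegrable (fun θ => w (circleMap 0 1 θ)) volume 0 (2 * Real.pi) := hw
  have hm : AEStronglyMeasurable (fun θ => w (circleMap 0 1 θ))
      (volume.restrict (uIoc 0 (2 * Real.pi))) := (intervalIntegrable_iff.1 hw').aestronglyMeasurable
  apply intervalIntegral.tendsto_integral_filter_of_dominated_convergence
    (fun θ => |w (circleMap 0 1 θ)|)
  · filter_upwards with j
    exact ((aestronglyMeasurable_const.inf hm.neg).add hm)
  · filter_upwards with j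
    filter_upwards with θ _
    rw [Real.norm_eq_abs]
    set x := w (circleMap 0 1 θ)
    have hj : (0 : ℝ) ≤ j := Nat.cast_nonneg j
    rcases le_total ((j : ℝ)) (-x) with h | h
    · rw [min_eq_left h, abs_of_nonpos (by linarith), abs_of_nonpos (by linarith)]
      linarith
    · rw [min_eq_right h]; simp
  · exact hw'.abs
  · filter_upwards with θ _
    set x := w (circleMap 0 1 θ)
    apply tendsto_const_nhds.congr'
    have : ∀ᶠ j : ℕ in atTop, -x ≤ (j : ℝ) :=
      tendsto_natCast_atTop_atTop.eventually_ge_atTop (-x)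
    filter_upwards [this] with j hj
    rw [min_eq_right hj]; simp

theorem outer_mult {w : ℂ → ℝ} (hw : CircleIntegrable w 0 1) {c : ℂ} (hc : ‖c‖ = 1) {f : ℂ → ℂ}
    (hf : ∀ z ∈ (Metric.ball (0 : ℂ) 1), f z = c * exp (HR w z)) :
    ∀ δ : ℝ, 0 < δ → ∃ (φ : ℂ → ℂ) (K : ℝ), DifferentiableOn ℂ φ (Metric.ball (0 : ℂ) 1) ∧
      (∀ z ∈ (Metric.ball (0 : ℂ) 1), ‖φ z‖ ≤ K) ∧ (∀ z ∈ (Metric.ball (0 : ℂ) 1), ‖φ z * f z‖ ≤ 1) ∧ ‖φ 0 * f 0 - 1‖ < δ := by
  intro δ hδ
  have hcc : (starRingEnd ℂ) c * c = 1 := by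
    rw [Complex.conj_mul', hc]; simp
  -- circle integrability of the truncation
  have hg : ∀ j : ℕ, CircleIntegrable (fun ζ => min ((j : ℝ)) (-w ζ)) 0 1 := by
    intro j
    have hw' : IntervalIntegrable (fun θ => w (circleMap 0 1 θ)) volume 0 (2 * Real.pi) := hw
    have hm : AEStronglyMeasurable (fun θ => w (circleMap 0 1 θ))
      (volume.restrict (uIoc 0 (2 * Real.pi))) := (intervalIntegrable_iff.1 hw').aestronglyMeasurable
    have hb : IntervalIntegrable (fun θ => (j : ℝ) + |w (circleMap 0 1 θ)|) volume 0 (2 * Real.pi) :=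
      (intervalIntegrable_const).add hw'.abs
    refine IntervalIntegrable.mono_fun hb (aestronglyMeasurable_const.inf hm.neg) ?_
    filter_upwards with θ
    have hj : (0 : ℝ) ≤ j := Nat.cast_nonneg j
    rw [Real.norm_eq_abs, Real.norm_eq_abs, abs_of_nonneg (by positivity : (0 : ℝ) ≤ (j : ℝ) + |w (circleMap 0 1 θ)|)]
    rw [abs_le]
    constructor
    · rw [le_min_iff]
      constructor
      · linarith [abs_nonneg (w (circleMap 0 1 θ))]
      · linarith [le_abs_self (w (circleMap 0 1 θ))]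
    · exact (min_le_left _ _).trans (by linarith [abs_nonneg (w (circleMap 0 1 θ))])
  set Φ : ℕ → ℂ → ℂ := fun j z => (starRingEnd ℂ) c * exp (HR (fun ζ => min ((j : ℝ)) (-w ζ)) z) with hΦ
  have hprod : ∀ j : ℕ, ∀ z ∈ (Metric.ball (0 : ℂ) 1), Φ j z * f z
      = exp (HR (fun ζ => min ((j : ℝ)) (-w ζ) + w ζ) z) := by
    intro j z hz
    rw [HR_add (hg j) hw hz, Complex.exp_add, hf z hz, hΦ]
    simp only
    linear_combination (exp (HR (fun ζ => min (↑j) (-w ζ)) z) * exp (HR w z)) * hcc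
  have ht : Tendsto (fun j : ℕ => Φ j 0 * f 0) atTop (𝓝 1) := by
    have h1 := avg_tendsto hw
    have h2 : Tendsto (fun j : ℕ => exp (((Real.circleAverage
        (fun ζ => min ((j : ℝ)) (-w ζ) + w ζ) 0 1 : ℝ) : ℂ))) atTop (𝓝 (exp ((0 : ℝ) : ℂ))) :=
      (Complex.continuous_exp.tendsto _).comp ((Complex.continuous_ofReal.tendsto _).comp h1)
    have h3 : exp ((0 : ℝ) : ℂ) = 1 := by simp
    rw [h3] at h2
    refine h2.congr fun j => ?_
    rw [hprod j 0 (by simp), HR_zero]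
  obtain ⟨j, hj⟩ := ((Metric.tendsto_nhds.1 ht) δ hδ).exists
  refine ⟨Φ j, Real.exp j, ?_, ?_, ?_, ?_⟩
  · exact (differentiableOn_const _).mul ((HR_diff (hg j)).cexp)
  · intro z hz
    rw [hΦ]
    simp only
    rw [norm_mul, RCLike.norm_conj, hc, one_mul, Complex.norm_exp]
    apply Real.exp_le_exp.2
    exact HR_re_le (hg j) hz (fun ζ => min_le_left _ _)
  · intro z hz
    rw [hprod j z hz, Complex.norm_exp]
    rw [Real.exp_le_one_iff]
    refine HR_re_le ((hg j).add hw) hz (fun ζ => ?_)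
    have := min_le_right (j : ℝ) (-w ζ)
    simp only [Pi.add_apply]
    linarith
  · rw [← dist_eq_norm]; exact hj

end Pool.Agent.X106.DP
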