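import Pool.Agent.X106.DP.Norm

/-!
# A sufficient condition for cyclicity in `D^p_{p-1}`
-/

set_option autoImplicit false

namespace Pool.Agent.X106.DP
open MeasureTheory Filter Topology Complex Set
open scoped ENNReal


lemma diffOn_dil {f : ℂ → ℂ} (hf : DifferentiableOn ℂ f (Metric.ball (0 : ℂ) 1)) {s : ℝ} (hs0 : 0 ≤ s) (hs1 : s ≤ 1) :
    DifferentiableOn ℂ (fun z => f (s * z)) (Metric.ball (0 : ℂ) 1) := fun z hz =>
  (hasDerivAt_dil hf hs0 hs1 (by simpa using hz)).differentiableAt.differentiableWithinAt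

theorem exists_poly {p : ℝ} (hp : 2 < p) {f : ℂ → ℂ} (hf : DifferentiableOn ℂ f (Metric.ball (0 : ℂ) 1))
    (hfin : ∫⁻ z in (Metric.ball (0 : ℂ) 1), wt p z * ‖deriv f z‖ₑ ^ p ≠ ⊤)
    (H : ∀ δ : ℝ, 0 < δ → ∃ (φ : ℂ → ℂ) (K : ℝ), DifferentiableOn ℂ φ (Metric.ball (0 : ℂ) 1) ∧
      (∀ z ∈ (Metric.ball (0 : ℂ) 1), ‖φ z‖ ≤ K) ∧ (∀ z ∈ (Metric.ball (0 : ℂ) 1), ‖φ z * f z‖ ≤ 1) ∧ ‖φ 0 * f 0 - 1‖ < δ)
    {ε : ℝ≥0∞} (hε : 0 < ε) :
    ∃ q : Polynomial ℂ, NN p (fun z => q.eval z * f z - 1) ≤ ε := by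
  have hp1 : 1 < p := by linarith
  have hp0 : (0 : ℝ) < p := by linarith
  have hp0' : 0 < 1 / p := by positivity
  have hε4 : 0 < ε / 4 := ENNReal.div_pos hε.ne' (by norm_num)
  -- the choice of `δ`
  have hδ : ∃ δ : ℝ, 0 < δ ∧ ∀ x : ℂ, ‖x - 1‖ < δ →
      ‖x - 1‖ₑ + ENNReal.ofReal (2 * (1 - ‖x‖ ^ 2)) ^ (1 / p) ≤ ε / 4 := by
    have hc : Continuous (fun x : ℂ => ‖x - 1‖ₑ + ENNReal.ofReal (2 * (1 - ‖x‖ ^ 2)) ^ (1 / p)) := by
      have c0 : Continuous (fun x : ℂ => 2 * (1 - ‖x‖ ^ 2)) := by fun_prop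
      have c1 : Continuous (fun x : ℂ => ‖x - 1‖ₑ) := by fun_prop
      exact c1.add (ENNReal.continuous_rpow_const.comp (ENNReal.continuous_ofReal.comp c0))
    have ht := hc.tendsto 1
    have h0 : ‖(1 : ℂ) - 1‖ₑ + ENNReal.ofReal (2 * (1 - ‖(1 : ℂ)‖ ^ 2)) ^ (1 / p) = 0 := by
      simp [hp0]
    rw [h0] at ht
    have h1 := (ENNReal.tendsto_nhds_zero.1 ht) _ hε4
    obtain ⟨δ, hδ0, hδ⟩ := Metric.eventually_nhds_iff.1 h1
    exact ⟨δ, hδ0, fun x hx => hδ (by rwa [dist_eq_norm])⟩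
  obtain ⟨δ, hδ0, hδ⟩ := hδ
  obtain ⟨φ, K, hφ, hK, hb, h1⟩ := H δ hδ0
  set h : ℂ → ℂ := fun z => φ z * f z with hh
  have hhd : DifferentiableOn ℂ h (Metric.ball (0 : ℂ) 1) := hφ.mul hf
  have hen := energy_p hp hhd hb
  have hhfin : ∫⁻ z in (Metric.ball (0 : ℂ) 1), wt p z * ‖deriv h z‖ₑ ^ p ≠ ⊤ :=
    ne_top_of_le_ne_top ENNReal.ofReal_ne_top hen
  -- `N(h - 1) ≤ ε/4`
  have b1 : NN p (fun z => h z - 1) ≤ ε / 4 := by
    refine le_trans ?_ (hδ (h 0) h1)
    unfold NN LP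
    have : deriv (fun z => h z - 1) = deriv h := by
      funext z; exact deriv_sub_const _
    rw [this]
    gcongr
  -- choice of `s`
  have t1 := main_lemma hp1 hf hφ hK hfin
  have t2 := main_lemma hp1 hhd (φ := fun _ => 1) (K := 1) (differentiableOn_const _)
    (fun z _ => by simp) hhfin
  have t1' : Tendsto (fun s : ℝ => LP p (deriv (fun z => φ (s * z) * (f z - f (s * z)))))
      (𝓝[<] 1) (𝓝 0) := by
    have := (ENNReal.continuous_rpow_const (y := 1 / p)).tendsto 0 |>.comp t1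
    rw [ENNReal.zero_rpow_of_pos hp0'] at this
    exact this
  have t2' : Tendsto (fun s : ℝ => LP p (deriv (fun z => 1 * (h z - h (s * z)))))
      (𝓝[<] 1) (𝓝 0) := by
    have := (ENNReal.continuous_rpow_const (y := 1 / p)).tendsto 0 |>.comp t2
    rw [ENNReal.zero_rpow_of_pos hp0'] at this
    exact this
  have h4 : ∀ᶠ ρ : ℝ in 𝓝[<] 1, 0 < ρ := by
    apply nhdsWithin_le_nhds
    exact lt_mem_nhds (by norm_num)
  obtain ⟨s, hs1, hs2, hs0, hs3⟩ := (((ENNReal.tendsto_nhds_zero.1 t1') _ hε4).and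
    (((ENNReal.tendsto_nhds_zero.1 t2') _ hε4).and (h4.and self_mem_nhdsWithin))).exists
  have hs3' : s < 1 := hs3
  -- the function `A = φ_s (f - f_s)`
  set A : ℂ → ℂ := fun z => φ (s * z) * (f z - f (s * z)) with hA
  set B : ℂ → ℂ := fun z => 1 * (h z - h (s * z)) with hB
  have hAd : DifferentiableOn ℂ A (Metric.ball (0 : ℂ) 1) :=
    (diffOn_dil hφ hs0.le hs3'.le).mul (hf.sub (diffOn_dil hf hs0.le hs3'.le))
  have hBd : DifferentiableOn ℂ B (Metric.ball (0 : ℂ) 1) :=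
    (differentiableOn_const _).mul (hhd.sub (diffOn_dil hhd hs0.le hs3'.le))
  have b2 : NN p A ≤ ε / 4 := by
    unfold NN
    have : A 0 = 0 := by simp [hA]
    rw [this, enorm_zero, zero_add]; exact hs1
  have b3 : NN p (fun z => -B z) ≤ ε / 4 := by
    rw [NN_neg]
    unfold NN
    have : B 0 = 0 := by simp [hB]
    rw [this, enorm_zero, zero_add]; exact hs2
  -- choice of the polynomial
  have hLf := LP_self hp1 hf hfin
  have hLf' : LP p (deriv f) ≠ ⊤ := by
    unfold LP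
    exact ENNReal.rpow_ne_top_of_nonneg hp0'.le hfin
  set L := ‖f 0‖ₑ + (LP p f + LP p (deriv f)) with hL
  have hLtop : L ≠ ⊤ := ENNReal.add_ne_top.2 ⟨enorm_ne_top, ENNReal.add_ne_top.2 ⟨hLf, hLf'⟩⟩
  obtain ⟨η, hη0, hη⟩ : ∃ η : ℝ, 0 < η ∧ ENNReal.ofReal η * L ≤ ε / 4 := by
    have hc : Tendsto (fun η : ℝ => ENNReal.ofReal η * L) (𝓝[>] 0) (𝓝 0) := by
      have h1 : Tendsto (fun η : ℝ => ENNReal.ofReal η) (𝓝[>] 0) (𝓝 0) := by
        have := ENNReal.continuous_ofReal.tendsto 0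
        rw [ENNReal.ofReal_zero] at this
        exact this.mono_left nhdsWithin_le_nhds
      have := ENNReal.Tendsto.mul_const (b := L) h1 (Or.inr hLtop)
      simpa using this
    obtain ⟨η, h1, h2⟩ := (((ENNReal.tendsto_nhds_zero.1 hc) _ hε4).and self_mem_nhdsWithin).exists
    exact ⟨η, h2, h1⟩
  obtain ⟨q, hq⟩ := taylor hφ hs0.le hs3' hη0
  refine ⟨q, ?_⟩
  set D : ℂ → ℂ := fun z => (q.eval z - φ (s * z)) * f z with hD
  have hφs := diffOn_dil hφ hs0.le hs3'.le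
  have hqd : DifferentiableOn ℂ (fun z => q.eval z - φ (s * z)) (Metric.ball (0 : ℂ) 1) :=
    (q.differentiable.differentiableOn).sub hφs
  have hDd : DifferentiableOn ℂ D (Metric.ball (0 : ℂ) 1) := hqd.mul hf
  have b4 : NN p D ≤ ε / 4 := by
    refine le_trans ?_ hη
    have hder : ∀ z ∈ (Metric.ball (0 : ℂ) 1), deriv D z = (q.derivative.eval z - s * deriv φ (s * z)) * f z
        + (q.eval z - φ (s * z)) * deriv f z := by
      intro z hz
      exact (((q.hasDerivAt z).sub (hasDerivAt_dil hφ hs0.le hs3'.le (by simpa using hz))).mul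
        (hf.differentiableAt (Metric.isOpen_ball.mem_nhds hz)).hasDerivAt).deriv
    unfold NN
    rw [LP_congr hder]
    have hmaps : MapsTo (fun z : ℂ => (s : ℂ) * z) (Metric.ball (0 : ℂ) 1) (Metric.ball (0 : ℂ) 1) := fun z hz =>
      sw_mem hs0.le hs3'.le (by simpa using hz)
    have c1 : ContinuousOn (fun z => (q.derivative.eval z - s * deriv φ (s * z)) * f z) (Metric.ball (0 : ℂ) 1) := by
      refine ContinuousOn.mul (ContinuousOn.sub q.derivative.continuous.continuousOn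
        (continuousOn_const.mul ?_)) hf.continuousOn
      exact (hφ.deriv Metric.isOpen_ball).continuousOn.comp (by fun_prop) hmaps
    have c2 : ContinuousOn (fun z => (q.eval z - φ (s * z)) * deriv f z) (Metric.ball (0 : ℂ) 1) :=
      hqd.continuousOn.mul (hf.deriv Metric.isOpen_ball).continuousOn
    have l1 : LP p (fun z => (q.derivative.eval z - s * deriv φ (s * z)) * f z)
        ≤ ENNReal.ofReal η * LP p f := by
      apply LP_const_mul hp1.le ENNReal.ofReal_ne_top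
      intro z hz
      rw [enorm_mul]
      gcongr
      rw [← ofReal_norm]
      exact ENNReal.ofReal_le_ofReal (hq z hz).2
    have l2 : LP p (fun z => (q.eval z - φ (s * z)) * deriv f z)
        ≤ ENNReal.ofReal η * LP p (deriv f) := by
      apply LP_const_mul hp1.le ENNReal.ofReal_ne_top
      intro z hz
      rw [enorm_mul]
      gcongr
      rw [← ofReal_norm]
      exact ENNReal.ofReal_le_ofReal (hq z hz).1
    have l3 : ‖D 0‖ₑ ≤ ENNReal.ofReal η * ‖f 0‖ₑ := by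
      rw [hD]
      simp only
      rw [enorm_mul]
      gcongr
      rw [← ofReal_norm]
      exact ENNReal.ofReal_le_ofReal (hq 0 (by simp)).1
    calc ‖D 0‖ₑ + LP p (fun z => (q.derivative.eval z - s * deriv φ (s * z)) * f z
          + (q.eval z - φ (s * z)) * deriv f z)
        ≤ ENNReal.ofReal η * ‖f 0‖ₑ + (ENNReal.ofReal η * LP p f
          + ENNReal.ofReal η * LP p (deriv f)) := by
          gcongr
          exact (LP_add hp1.le c1 c2).trans (by gcongr)
      _ = ENNReal.ofReal η * L := by rw [hL]; ring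
  have hfun : (fun z => q.eval z * f z - 1)
      = fun z => D z + (A z + (-B z + (h z - 1))) := by
    funext z
    simp only [hD, hA, hB, hh]
    ring
  rw [hfun]
  have d1 : DifferentiableOn ℂ (fun z => h z - 1) (Metric.ball (0 : ℂ) 1) := hhd.sub (differentiableOn_const _)
  have d2 : DifferentiableOn ℂ (fun z => -B z + (h z - 1)) (Metric.ball (0 : ℂ) 1) := hBd.neg.add d1
  have d3 : DifferentiableOn ℂ (fun z => A z + (-B z + (h z - 1))) (Metric.ball (0 : ℂ) 1) := hAd.add d2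
  calc NN p (fun z => D z + (A z + (-B z + (h z - 1))))
      ≤ NN p D + NN p (fun z => A z + (-B z + (h z - 1))) := NN_add hp1.le hDd d3
    _ ≤ NN p D + (NN p A + NN p (fun z => -B z + (h z - 1))) := by
        gcongr
        exact NN_add hp1.le hAd d2
    _ ≤ NN p D + (NN p A + (NN p (fun z => -B z) + NN p (fun z => h z - 1))) := by
        gcongr
        exact NN_add hp1.le hBd.neg d1
    _ ≤ ε / 4 + (ε / 4 + (ε / 4 + ε / 4)) := by gcongr
    _ = ε := by
        have : ε / 4 + (ε / 4 + (ε / 4 + ε / 4)) = 4 * (ε / 4) := by ring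
        rw [this, ENNReal.mul_div_cancel (by norm_num) (by norm_num)]

end Pool.Agent.X106.DP
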