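import Pool.Agent.X106.DP.PS

/-!
# The energy of a bounded holomorphic function
-/

set_option autoImplicit false

namespace Pool.Agent.X106.DP
open MeasureTheory Filter Topology Complex Set
open scoped ENNReal

/-- `1 - ‖z‖` is the length of `(‖z‖, 1)`. -/
lemma layer (F : ℂ → ℝ≥0∞) (hF : Measurable F) :
    ∫⁻ z in Metric.ball (0 : ℂ) 1, ENNReal.ofReal (1 - ‖z‖) * F z
      = ∫⁻ r in Ioo (0 : ℝ) 1, ∫⁻ z in Metric.ball (0 : ℂ) r, F z := by
  have h1 : ∀ z ∈ Metric.ball (0 : ℂ) 1, ENNReal.ofReal (1 - ‖z‖) * F z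
      = ∫⁻ r in Ioo (0 : ℝ) 1, (if ‖z‖ < r then F z else 0) := by
    intro z hz
    have e : (fun r : ℝ => if ‖z‖ < r then F z else 0) = (Ioi ‖z‖).indicator (fun _ => F z) := by
      funext r
      simp [indicator]
    rw [e, lintegral_indicator measurableSet_Ioi, Measure.restrict_restrict measurableSet_Ioi,
      lintegral_const, Measure.restrict_apply_univ]
    have : Ioi ‖z‖ ∩ Ioo (0 : ℝ) 1 = Ioo ‖z‖ 1 := by
      ext r
      simp only [mem_inter_iff, mem_Ioi, mem_Ioo]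
      constructor
      · rintro ⟨h1, _, h3⟩; exact ⟨h1, h3⟩
      · rintro ⟨h1, h3⟩; exact ⟨h1, (norm_nonneg z).trans_lt h1, h3⟩
    rw [this, Real.volume_Ioo, mul_comm]
  rw [setLIntegral_congr_fun measurableSet_ball h1]
  have hmeas : Measurable (Function.uncurry fun (z : ℂ) (r : ℝ) => if ‖z‖ < r then F z else 0) := by
    apply Measurable.ite
    · exact measurableSet_lt (by fun_prop) (by fun_prop)
    · exact hF.comp measurable_fst
    · exact measurable_const
  rw [lintegral_lintegral_swap hmeas.aemeasurable]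
  refine setLIntegral_congr_fun measurableSet_Ioo ?_
  intro r hr
  have e : (fun z : ℂ => if ‖z‖ < r then F z else 0) = (Metric.ball (0 : ℂ) r).indicator F := by
    funext z
    simp [indicator]
  simp only
  rw [e, lintegral_indicator measurableSet_ball, Measure.restrict_restrict measurableSet_ball]
  congr 2
  exact inter_eq_left.2 (Metric.ball_subset_ball hr.2.le)

lemma lint_pow (c : ℝ) (hc : 0 ≤ c) (n : ℕ) :
    ∫⁻ r in Ioo (0 : ℝ) 1, ENNReal.ofReal (c * r ^ n) = ENNReal.ofReal (c / (n + 1)) := by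
  rw [← ofReal_integral_eq_lintegral_ofReal]
  · congr 1
    rw [← integral_Ioc_eq_integral_Ioo, ← intervalIntegral.integral_of_le (by norm_num),
      intervalIntegral.integral_const_mul, integral_pow]
    simp
    ring
  · have : IntegrableOn (fun r : ℝ => c * r ^ n) (Icc 0 1) := by
      apply Continuous.integrableOn_Icc
      fun_prop
    exact this.mono_set Ioo_subset_Icc_self
  · filter_upwards [ae_restrict_mem measurableSet_Ioo] with r hr
    have := hr.1.le
    positivity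

theorem energy {h : ℂ → ℂ} (hd : DifferentiableOn ℂ h (Metric.ball 0 1))
    (hb : ∀ z ∈ Metric.ball (0 : ℂ) 1, ‖h z‖ ≤ 1) :
    ∫⁻ z in Metric.ball (0 : ℂ) 1, ENNReal.ofReal (1 - ‖z‖) * ‖deriv h z‖ₑ ^ 2
      ≤ ENNReal.ofReal (2 * (1 - ‖h 0‖ ^ 2)) := by
  have hps := isPS_tc hd
  have hd' : DifferentiableOn ℂ (deriv h) (Metric.ball 0 1) := hd.deriv Metric.isOpen_ball
  have hps' := isPS_tc hd'
  rw [layer (fun z => ‖deriv h z‖ₑ ^ 2) ((measurable_deriv h).enorm.pow_const 2)]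
  have h1 : ∀ r ∈ Ioo (0 : ℝ) 1, ∫⁻ z in Metric.ball (0 : ℂ) r, ‖deriv h z‖ₑ ^ 2
      = ∑' n : ℕ, ENNReal.ofReal (‖tc (deriv h) n‖ ^ 2 * Real.pi / (n + 1) * r ^ (2 * n + 2)) := by
    intro r hr
    have hs := hps'.sq_ball hr.1.le hr.2
    have e1 : ∫⁻ z in Metric.ball (0 : ℂ) r, ‖deriv h z‖ₑ ^ 2
        = ENNReal.ofReal (∫ z in Metric.ball (0 : ℂ) r, ‖deriv h z‖ ^ 2) := by
      rw [ofReal_integral_eq_lintegral_ofReal]
      · refine lintegral_congr fun z => ?_
        rw [ENNReal.ofReal_pow (norm_nonneg _), ofReal_norm]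
      · refine Integrable.of_bound ((hps'.aesm' hr.2).norm.pow 2)
          ((∑' n, ‖tc (deriv h) n‖ * r ^ n) ^ 2) ?_
        filter_upwards [ae_restrict_mem measurableSet_ball] with z hz
        rw [Real.norm_of_nonneg (by positivity)]
        exact pow_le_pow_left₀ (norm_nonneg _) (hps'.norm_le hr.1.le hr.2 hz) 2
      · exact ae_of_all _ fun _ => by positivity
    rw [e1, ← hs.tsum_eq, ENNReal.ofReal_tsum_of_nonneg _ hs.summable]
    · congr 1
      funext n
      congr 1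
      ring
    · intro n
      have := hr.1
      have := Real.pi_pos
      positivity
  rw [setLIntegral_congr_fun measurableSet_Ioo h1]
  rw [lintegral_tsum (fun n => by fun_prop)]
  have hpi := Real.pi_pos
  have h2 : ∀ n : ℕ, ∫⁻ r in Ioo (0 : ℝ) 1,
      ENNReal.ofReal (‖tc (deriv h) n‖ ^ 2 * Real.pi / (n + 1) * r ^ (2 * n + 2))
      ≤ ENNReal.ofReal (2 * ‖tc h (n + 1)‖ ^ 2) := by
    intro n
    rw [lint_pow _ (by positivity)]
    apply ENNReal.ofReal_le_ofReal
    rw [tc_deriv, norm_mul]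
    have e1 : ‖(n : ℂ) + 1‖ = (n : ℝ) + 1 := by
      have : ((n : ℂ) + 1) = (((n : ℝ) + 1 : ℝ) : ℂ) := by push_cast; ring
      rw [this, Complex.norm_real, Real.norm_of_nonneg (by positivity)]
    rw [e1]
    have h3 : Real.pi ≤ 4 := Real.pi_le_four
    have h4 : (0 : ℝ) < (n : ℝ) + 1 := by positivity
    rw [mul_pow]
    push_cast
    rw [div_le_iff₀ (by positivity)]
    have e2 : (((n : ℝ) + 1) ^ 2 * ‖tc h (n + 1)‖ ^ 2) * Real.pi / ((n : ℝ) + 1)
        = ((n : ℝ) + 1) * Real.pi * ‖tc h (n + 1)‖ ^ 2 := by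
      field_simp
    rw [e2]
    have h5 : ((n : ℝ) + 1) * Real.pi ≤ 2 * (2 * (n : ℝ) + 2 + 1) := by nlinarith
    calc ((n : ℝ) + 1) * Real.pi * ‖tc h (n + 1)‖ ^ 2
        ≤ 2 * (2 * (n : ℝ) + 2 + 1) * ‖tc h (n + 1)‖ ^ 2 := by gcongr
      _ = _ := by ring
  refine (ENNReal.tsum_le_tsum h2).trans ?_
  apply ENNReal.tsum_le_of_sum_range_le
  intro N
  rw [← ENNReal.ofReal_sum_of_nonneg (fun _ _ => by positivity)]
  apply ENNReal.ofReal_le_ofReal
  rw [← Finset.mul_sum]
  have h6 := sum_sq_le_one hps hb (N + 1)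
  rw [Finset.sum_range_succ', tc_zero] at h6
  linarith

end Pool.Agent.X106.DP
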