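import Pool.Agent.X106.DP.Scale

/-!
# `φ_s (f - f_s) → 0` in `D^p_{p-1}` for bounded `φ`
-/

set_option autoImplicit false

namespace Pool.Agent.X106.DP
open MeasureTheory Filter Topology Complex Set
open scoped ENNReal

lemma vol_Ann {ρ : ℝ} (h0 : 0 ≤ ρ) (h1 : ρ < 1) :
    volume (Ann ρ) = ENNReal.ofReal (Real.pi * (1 - ρ ^ 2)) := by
  have e : Ann ρ = Metric.ball (0 : ℂ) 1 \ Metric.ball (0 : ℂ) ρ := by
    ext z; simp [Ann]; tauto
  rw [e, measure_sdiff (Metric.ball_subset_ball h1.le) measurableSet_ball.nullMeasurableSet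
    (measure_ball_lt_top).ne, Complex.volume_ball, Complex.volume_ball]
  have hpi : ((NNReal.pi : NNReal) : ℝ≥0∞) = ENNReal.ofReal Real.pi := by
    rw [ENNReal.ofReal, ← NNReal.coe_real_pi, Real.toNNReal_coe]
  rw [hpi, ← ENNReal.ofReal_pow h0, ← ENNReal.ofReal_mul (by positivity), ENNReal.ofReal_one,
    one_pow, one_mul, ← ENNReal.ofReal_sub _ (by positivity)]
  congr 1; ring

lemma tail_tendsto {p : ℝ} {F : ℂ → ℝ≥0∞}
    (hF : ∫⁻ u in Metric.ball (0 : ℂ) 1, wt p u * F u ≠ ⊤) :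
    Tendsto (fun ρ : ℝ => ∫⁻ u in Ann ρ, wt p u * F u) (𝓝[<] 1) (𝓝 0) := by
  have h1 : Tendsto (fun ρ : ℝ => (volume.restrict (Metric.ball (0 : ℂ) 1)) (Ann ρ)) (𝓝[<] 1) (𝓝 0) := by
    have h2 : Tendsto (fun ρ : ℝ => ENNReal.ofReal (Real.pi * (1 - ρ ^ 2))) (𝓝[<] 1) (𝓝 0) := by
      have : Continuous (fun ρ : ℝ => ENNReal.ofReal (Real.pi * (1 - ρ ^ 2))) :=
        ENNReal.continuous_ofReal.comp (by fun_prop)
      have h3 := (this.tendsto 1).mono_left (nhdsWithin_le_nhds (s := Iio 1))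
      simpa using h3
    refine h2.congr' ?_
    have h4 : ∀ᶠ ρ : ℝ in 𝓝[<] 1, 0 < ρ := by
      apply nhdsWithin_le_nhds
      exact lt_mem_nhds (by norm_num)
    filter_upwards [h4, self_mem_nhdsWithin] with ρ h0 h1
    rw [Measure.restrict_apply (measurableSet_Ann ρ), inter_eq_left.2 (Ann_sub ρ),
      vol_Ann h0.le h1]
  have h2 := tendsto_setLIntegral_zero (μ := volume.restrict (Metric.ball (0 : ℂ) 1)) hF h1
  refine h2.congr fun ρ => ?_
  rw [Measure.restrict_restrict (measurableSet_Ann ρ), inter_eq_left.2 (Ann_sub ρ)]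

/-- split lemma -/
lemma split_lemma {p : ℝ} (hp : 1 < p) {F : ℂ → ℝ≥0∞}
    (hF : ∫⁻ u in Metric.ball (0 : ℂ) 1, wt p u * F u ≠ ⊤)
    {T : ℝ → ℂ → ℂ} {C : ℝ≥0∞} (hC : C ≠ ⊤)
    (htail : ∀ s, 1/2 ≤ s → s < 1 → ∀ ρ, 0 ≤ ρ → ρ < 1 →
      ∫⁻ w in Ann ρ, wt p w * ‖T s w‖ₑ ^ p ≤ C * ∫⁻ u in Ann (s * ρ), wt p u * F u)
    (hloc : ∀ ρ, 0 ≤ ρ → ρ < 1 → ∃ M : ℝ, ∀ s, 1/2 ≤ s → s < 1 → ∀ w : ℂ, ‖w‖ ≤ ρ →
      ‖T s w‖ ≤ M * (1 - s)) :
    Tendsto (fun s => ∫⁻ w in Metric.ball (0:ℂ) 1, wt p w * ‖T s w‖ₑ ^ p) (𝓝[<] 1) (𝓝 0) := by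
  rw [ENNReal.tendsto_nhds_zero]
  intro ε hε
  have hε2 : 0 < ε / 2 := ENNReal.half_pos hε.ne'
  have h1 : Tendsto (fun ρ : ℝ => C * ∫⁻ u in Ann ρ, wt p u * F u) (𝓝[<] 1) (𝓝 0) := by
    have := ENNReal.Tendsto.const_mul (tail_tendsto hF) (Or.inr hC)
    simpa using this
  have h2 := (ENNReal.tendsto_nhds_zero.1 h1) (ε / 2) hε2
  have h4 : ∀ᶠ ρ : ℝ in 𝓝[<] 1, 0 < ρ := by
    apply nhdsWithin_le_nhds
    exact lt_mem_nhds (by norm_num)
  obtain ⟨r, hr, hr0, hr1⟩ := (h2.and (h4.and self_mem_nhdsWithin)).exists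
  have hr1' : r < 1 := hr1
  set ρ := (1 + r) / 2 with hρ
  have hρr : r < ρ := by rw [hρ]; linarith
  have hρ1 : ρ < 1 := by rw [hρ]; linarith
  have hρ0 : 0 < ρ := hr0.trans hρr
  obtain ⟨M, hM⟩ := hloc ρ hρ0.le hρ1
  have h5 : Tendsto (fun s : ℝ => ENNReal.ofReal ((M * (1 - s)) ^ p) *
      volume (Metric.ball (0 : ℂ) ρ)) (𝓝[<] 1) (𝓝 0) := by
    have hc : Tendsto (fun s : ℝ => ENNReal.ofReal ((M * (1 - s)) ^ p)) (𝓝 1) (𝓝 0) := by
      have : Continuous (fun s : ℝ => ENNReal.ofReal ((M * (1 - s)) ^ p)) := by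
        apply ENNReal.continuous_ofReal.comp
        exact (Real.continuous_rpow_const (by linarith)).comp (by fun_prop)
      have h3 := this.tendsto 1
      simpa [Real.zero_rpow (by linarith : p ≠ 0)] using h3
    have := ENNReal.Tendsto.mul_const (b := volume (Metric.ball (0 : ℂ) ρ))
      (hc.mono_left (nhdsWithin_le_nhds (s := Iio 1))) (Or.inr measure_ball_lt_top.ne)
    simpa using this
  have h6 := (ENNReal.tendsto_nhds_zero.1 h5) (ε / 2) hε2
  have h7 : ∀ᶠ s : ℝ in 𝓝[<] 1, max (1/2) (r / ρ) < s := by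
    apply nhdsWithin_le_nhds
    apply lt_mem_nhds
    rw [max_lt_iff]
    refine ⟨by norm_num, ?_⟩
    rw [div_lt_one hρ0]; exact hρr
  filter_upwards [h6, h7, self_mem_nhdsWithin] with s hs6 hs7 hs1
  have hs1' : s < 1 := hs1
  have hs2 : 1/2 ≤ s := ((le_max_left _ _).trans_lt hs7).le
  have hs3 : r / ρ < s := (le_max_right _ _).trans_lt hs7
  have hs4 : r ≤ s * ρ := by
    rw [div_lt_iff₀ hρ0] at hs3; exact hs3.le
  have hcov : Metric.ball (0 : ℂ) 1 ⊆ Metric.ball (0 : ℂ) ρ ∪ Ann ρ := by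
    intro z hz
    by_cases h : ‖z‖ < ρ
    · left; simpa using h
    · right; exact ⟨not_lt.1 h, by simpa using hz⟩
  calc ∫⁻ w in Metric.ball (0:ℂ) 1, wt p w * ‖T s w‖ₑ ^ p
      ≤ ∫⁻ w in Metric.ball (0:ℂ) ρ ∪ Ann ρ, wt p w * ‖T s w‖ₑ ^ p := lintegral_mono_set hcov
    _ ≤ (∫⁻ w in Metric.ball (0:ℂ) ρ, wt p w * ‖T s w‖ₑ ^ p)
        + (∫⁻ w in Ann ρ, wt p w * ‖T s w‖ₑ ^ p) := lintegral_union_le _ _ _
    _ ≤ ε / 2 + ε / 2 := by
        gcongr
        · refine le_trans ?_ hs6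
          rw [← setLIntegral_const]
          refine setLIntegral_mono' measurableSet_ball fun w hw => ?_
          have hw' : ‖w‖ < ρ := by simpa using hw
          have hT := hM s hs2 hs1' w hw'.le
          calc wt p w * ‖T s w‖ₑ ^ p ≤ 1 * ENNReal.ofReal (M * (1 - s)) ^ p := by
                gcongr
                · exact wt_le_one hp.le (hw'.trans hρ1)
                · rw [← ofReal_norm]; exact ENNReal.ofReal_le_ofReal hT
            _ = _ := by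
                rw [one_mul, ENNReal.ofReal_rpow_of_nonneg ((norm_nonneg _).trans hT) (by linarith)]
        · refine (htail s hs2 hs1' ρ hρ0.le hρ1).trans ?_
          refine le_trans ?_ hr
          gcongr
          exact Ann_anti hs4
    _ = ε := ENNReal.add_halves ε

lemma deriv_bound {φ : ℂ → ℂ} (hφ : DifferentiableOn ℂ φ (Metric.ball 0 1)) {K : ℝ}
    (hK : ∀ z ∈ Metric.ball (0 : ℂ) 1, ‖φ z‖ ≤ K) {z : ℂ} (hz : ‖z‖ < 1) :
    ‖deriv φ z‖ * (1 - ‖z‖) ≤ K := by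
  have h1 : ∀ r ∈ Ioo 0 (1 - ‖z‖), ‖deriv φ z‖ * r ≤ K := by
    intro r hr
    have hsub : Metric.closedBall z r ⊆ Metric.ball (0 : ℂ) 1 := by
      intro w hw
      rw [Metric.mem_closedBall, dist_eq_norm] at hw
      rw [mem_ball_zero_iff]
      calc ‖w‖ = ‖(w - z) + z‖ := by ring_nf
        _ ≤ ‖w - z‖ + ‖z‖ := norm_add_le _ _
        _ < 1 := by linarith [hr.2]
    have hd : DiffContOnCl ℂ φ (Metric.ball z r) := by
      apply DifferentiableOn.diffContOnCl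
      refine hφ.mono ?_
      rw [closure_ball z hr.1.ne']
      exact hsub
    have h2 := Complex.norm_deriv_le_of_forall_mem_sphere_norm_le hr.1 hd
      (fun w hw => hK w (hsub (Metric.sphere_subset_closedBall hw)))
    rwa [le_div_iff₀ hr.1] at h2
  have hc : Tendsto (fun r : ℝ => ‖deriv φ z‖ * r) (𝓝[<] (1 - ‖z‖)) (𝓝 (‖deriv φ z‖ * (1 - ‖z‖))) := by
    have : Continuous (fun r : ℝ => ‖deriv φ z‖ * r) := by fun_prop
    exact (this.tendsto _).mono_left nhdsWithin_le_nhds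
  refine le_of_tendsto hc ?_
  have h3 : Ioo 0 (1 - ‖z‖) ∈ 𝓝[<] (1 - ‖z‖) := Ioo_mem_nhdsLT (by linarith)
  filter_upwards [h3] with r hr using h1 r hr

lemma three_rpow {p : ℝ} (hp : 0 ≤ p) (a b c : ℝ≥0∞) :
    (a + b + c) ^ p ≤ 3 ^ p * (a ^ p + b ^ p + c ^ p) := by
  have h1 : ∀ m : ℝ≥0∞, a ≤ m → b ≤ m → c ≤ m → (a + b + c) ^ p ≤ 3 ^ p * m ^ p := by
    intro m ha hb hc
    rw [← ENNReal.mul_rpow_of_nonneg _ _ hp]
    apply ENNReal.rpow_le_rpow _ hp
    calc a + b + c ≤ m + m + m := by gcongr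
      _ = 3 * m := by ring
  rcases le_total a b with hab | hab
  · rcases le_total b c with hbc | hbc
    · refine (h1 c (hab.trans hbc) hbc le_rfl).trans ?_
      gcongr
      exact le_add_self
    · refine (h1 b hab le_rfl hbc).trans ?_
      gcongr
      exact le_add_self.trans le_self_add
  · rcases le_total a c with hac | hac
    · refine (h1 c hac (hab.trans hac) le_rfl).trans ?_
      gcongr
      exact le_add_self
    · refine (h1 a le_rfl hab hac).trans ?_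
      gcongr
      exact le_self_add.trans le_self_add

lemma loc_lip {h : ℂ → ℂ} (hh : DifferentiableOn ℂ h (Metric.ball 0 1)) {ρ : ℝ} (h1 : ρ < 1) :
    ∃ M : ℝ, 0 ≤ M ∧ (∀ w : ℂ, ‖w‖ ≤ ρ → ‖deriv h w‖ ≤ M) ∧
      ∀ s : ℝ, 0 ≤ s → s ≤ 1 → ∀ w : ℂ, ‖w‖ ≤ ρ → ‖h w - h (s * w)‖ ≤ M * (1 - s) := by
  have hsub : Metric.closedBall (0 : ℂ) ρ ⊆ Metric.ball (0 : ℂ) 1 :=
    Metric.closedBall_subset_ball h1
  have hc : ContinuousOn (deriv h) (Metric.closedBall (0 : ℂ) ρ) :=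
    (hh.deriv Metric.isOpen_ball).continuousOn.mono hsub
  obtain ⟨M, hM⟩ := (isCompact_closedBall (0 : ℂ) ρ).exists_bound_of_continuousOn hc
  have hM' : ∀ w ∈ Metric.closedBall (0 : ℂ) ρ, ‖deriv h w‖ ≤ max M 0 :=
    fun w hw => (hM w hw).trans (le_max_left _ _)
  refine ⟨max M 0, le_max_right _ _, fun w hw => hM' w (by simpa using hw), ?_⟩
  intro s hs0 hs1 w hw
  have hsw : ‖(s : ℂ) * w‖ ≤ ρ := by
    rw [norm_mul, Complex.norm_real, Real.norm_of_nonneg hs0]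
    exact (mul_le_of_le_one_left (norm_nonneg w) hs1).trans hw
  have h2 := Convex.norm_image_sub_le_of_norm_deriv_le (𝕜 := ℂ) (f := h)
    (s := Metric.closedBall (0 : ℂ) ρ) (C := max M 0) (x := (s : ℂ) * w) (y := w)
    (fun x hx => hh.differentiableAt (Metric.isOpen_ball.mem_nhds (hsub hx))) hM'
    (convex_closedBall _ _) (by simpa using hsw) (by simpa using hw)
  refine h2.trans ?_
  gcongr
  have : w - s * w = ((1 - s : ℝ) : ℂ) * w := by push_cast; ring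
  rw [this, norm_mul, Complex.norm_real, Real.norm_of_nonneg (by linarith)]
  exact mul_le_of_le_one_right (by linarith) (by linarith)

lemma sw_mem {s : ℝ} (hs0 : 0 ≤ s) (hs1 : s ≤ 1) {w : ℂ} (hw : ‖w‖ < 1) :
    (s : ℂ) * w ∈ Metric.ball (0 : ℂ) 1 := by
  rw [mem_ball_zero_iff, norm_mul, Complex.norm_real, Real.norm_of_nonneg hs0]
  exact (mul_le_of_le_one_left (norm_nonneg w) hs1).trans_lt hw

lemma hasDerivAt_dil {f : ℂ → ℂ} (hf : DifferentiableOn ℂ f (Metric.ball 0 1))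
    {s : ℝ} (hs0 : 0 ≤ s) (hs1 : s ≤ 1) {w : ℂ} (hw : ‖w‖ < 1) :
    HasDerivAt (fun z => f (s * z)) (s * deriv f (s * w)) w := by
  have h1 : HasDerivAt f (deriv f (s * w)) (s * w) :=
    (hf.differentiableAt (Metric.isOpen_ball.mem_nhds (sw_mem hs0 hs1 hw))).hasDerivAt
  have h2 : HasDerivAt (fun u : ℂ => (s : ℂ) * u) (s : ℂ) w := by
    simpa using (hasDerivAt_id w).const_mul (s : ℂ)
  have := h1.comp w h2
  rw [mul_comm] at this
  exact this

lemma deriv_T {f φ : ℂ → ℂ} (hf : DifferentiableOn ℂ f (Metric.ball 0 1))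
    (hφ : DifferentiableOn ℂ φ (Metric.ball 0 1))
    {s : ℝ} (hs0 : 0 ≤ s) (hs1 : s ≤ 1) {w : ℂ} (hw : ‖w‖ < 1) :
    deriv (fun z => φ (s * z) * (f z - f (s * z))) w
      = s * deriv φ (s * w) * (f w - f (s * w)) + φ (s * w) * (deriv f w - s * deriv f (s * w)) := by
  have h1 : HasDerivAt f (deriv f w) w :=
    (hf.differentiableAt (Metric.isOpen_ball.mem_nhds (by simpa using hw))).hasDerivAt
  exact ((hasDerivAt_dil hφ hs0 hs1 hw).mul (h1.sub (hasDerivAt_dil hf hs0 hs1 hw))).deriv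

theorem main_lemma {p : ℝ} (hp : 1 < p) {f φ : ℂ → ℂ}
    (hf : DifferentiableOn ℂ f (Metric.ball 0 1))
    (hφ : DifferentiableOn ℂ φ (Metric.ball 0 1)) {K : ℝ}
    (hK : ∀ z ∈ Metric.ball (0 : ℂ) 1, ‖φ z‖ ≤ K)
    (hfin : ∫⁻ z in Metric.ball (0 : ℂ) 1, wt p z * ‖deriv f z‖ₑ ^ p ≠ ⊤) :
    Tendsto (fun s : ℝ => ∫⁻ w in Metric.ball (0 : ℂ) 1,
      wt p w * ‖deriv (fun z => φ (s * z) * (f z - f (s * z))) w‖ₑ ^ p) (𝓝[<] 1) (𝓝 0) := by
  have hK0 : 0 ≤ K := (norm_nonneg _).trans (hK 0 (by simp))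
  have hp0 : (0 : ℝ) ≤ p := by linarith
  have hmd : Measurable (deriv f) := measurable_deriv f
  refine split_lemma hp (F := fun u => ‖deriv f u‖ₑ ^ p) hfin
    (C := 3 ^ p * (ENNReal.ofReal K ^ p * 9)) ?_ ?_ ?_
  · refine ENNReal.mul_ne_top (ENNReal.rpow_ne_top_of_nonneg hp0 (by norm_num)) ?_
    exact ENNReal.mul_ne_top (ENNReal.rpow_ne_top_of_nonneg hp0 ENNReal.ofReal_ne_top) (by norm_num)
  · intro s hs0 hs1 ρ hρ0 hρ1
    have hs : 0 < 1 - s := by linarith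
    have hs00 : 0 < s := by linarith
    set J := ∫⁻ u in Ann (s * ρ), wt p u * ‖deriv f u‖ₑ ^ p with hJ
    have hpt : ∀ w ∈ Ann ρ, wt p w * ‖deriv (fun z => φ (s * z) * (f z - f (s * z))) w‖ₑ ^ p
        ≤ 3 ^ p * (ENNReal.ofReal (K / (1 - s)) ^ p * (wt p w * ‖f w - f (s * w)‖ₑ ^ p)
          + (ENNReal.ofReal K ^ p * (wt p w * ‖deriv f w‖ₑ ^ p)
          + ENNReal.ofReal K ^ p * (wt p w * ‖deriv f (s * w)‖ₑ ^ p))) := by
      intro w hw
      rw [deriv_T hf hφ (by linarith) hs1.le hw.2]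
      have hsw := sw_mem (by linarith : (0:ℝ) ≤ s) hs1.le hw.2
      have hnsw : ‖(s : ℂ) * w‖ ≤ s := by
        rw [norm_mul, Complex.norm_real, Real.norm_of_nonneg (by linarith)]
        exact mul_le_of_le_one_right (by linarith) hw.2.le
      have h1 : ‖(s : ℂ) * deriv φ (s * w)‖ₑ ≤ ENNReal.ofReal (K / (1 - s)) := by
        rw [← ofReal_norm]
        apply ENNReal.ofReal_le_ofReal
        rw [norm_mul, Complex.norm_real, Real.norm_of_nonneg (by linarith), le_div_iff₀ hs]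
        have h2 := deriv_bound hφ hK (z := s * w) (by simpa using hsw)
        calc s * ‖deriv φ (s * w)‖ * (1 - s) ≤ 1 * ‖deriv φ (s * w)‖ * (1 - ‖(s : ℂ) * w‖) := by
              gcongr
          _ ≤ K := by rw [one_mul]; exact h2
      have h2 : ‖φ (s * w)‖ₑ ≤ ENNReal.ofReal K := by
        rw [← ofReal_norm]
        exact ENNReal.ofReal_le_ofReal (hK _ hsw)
      have h3 : ‖(s : ℂ) * deriv f (s * w)‖ₑ ≤ ‖deriv f (s * w)‖ₑ := by
        rw [enorm_mul]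
        apply mul_le_of_le_one_left zero_le
        rw [← ofReal_norm, ENNReal.ofReal_le_one, Complex.norm_real, Real.norm_of_nonneg (by linarith)]
        exact hs1.le
      have h4 : ‖(s : ℂ) * deriv φ (s * w) * (f w - f (s * w))
            + φ (s * w) * (deriv f w - s * deriv f (s * w))‖ₑ
          ≤ ENNReal.ofReal (K / (1 - s)) * ‖f w - f (s * w)‖ₑ + ENNReal.ofReal K * ‖deriv f w‖ₑ
            + ENNReal.ofReal K * ‖deriv f (s * w)‖ₑ := by
        refine (enorm_add_le _ _).trans ?_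
        rw [enorm_mul, enorm_mul (φ _), add_assoc, ← mul_add]
        gcongr
        exact (enorm_sub_le).trans (by gcongr)
      calc wt p w * _ ≤ wt p w * (3 ^ p * ((ENNReal.ofReal (K / (1 - s)) * ‖f w - f (s * w)‖ₑ) ^ p
            + (ENNReal.ofReal K * ‖deriv f w‖ₑ) ^ p + (ENNReal.ofReal K * ‖deriv f (s * w)‖ₑ) ^ p)) := by
            gcongr
            exact (ENNReal.rpow_le_rpow h4 hp0).trans (three_rpow hp0 _ _ _)
        _ = _ := by
            rw [ENNReal.mul_rpow_of_nonneg _ _ hp0, ENNReal.mul_rpow_of_nonneg _ _ hp0,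
              ENNReal.mul_rpow_of_nonneg _ _ hp0]
            ring
    refine (setLIntegral_mono' (measurableSet_Ann ρ) hpt).trans ?_
    have hne1 : (3 : ℝ≥0∞) ^ p ≠ ⊤ := ENNReal.rpow_ne_top_of_nonneg hp0 (by norm_num)
    have hne2 : ENNReal.ofReal K ^ p ≠ ⊤ := ENNReal.rpow_ne_top_of_nonneg hp0 ENNReal.ofReal_ne_top
    have hne3 : ENNReal.ofReal (K / (1 - s)) ^ p ≠ ⊤ :=
      ENNReal.rpow_ne_top_of_nonneg hp0 ENNReal.ofReal_ne_top
    have hm1 : Measurable (fun w : ℂ => wt p w * ‖deriv f w‖ₑ ^ p) :=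
      (measurable_wt p).mul (hmd.enorm.pow_const p)
    have hm2 : Measurable (fun w : ℂ => wt p w * ‖deriv f (s * w)‖ₑ ^ p) :=
      (measurable_wt p).mul ((hmd.comp (by fun_prop)).enorm.pow_const p)
    have hm3 : Measurable (fun w : ℂ => ENNReal.ofReal K ^ p * (wt p w * ‖deriv f w‖ₑ ^ p)
        + ENNReal.ofReal K ^ p * (wt p w * ‖deriv f (s * w)‖ₑ ^ p)) :=
      (hm1.const_mul _).add (hm2.const_mul _)
    rw [lintegral_const_mul' _ _ hne1, lintegral_add_right _ hm3,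
      lintegral_add_right _ (hm2.const_mul _),
      lintegral_const_mul' _ _ hne3, lintegral_const_mul' _ _ hne2, lintegral_const_mul' _ _ hne2]
    have e1 := diff_est hp hf hs0 hs1 hρ0
    have e2 : ∫⁻ w in Ann ρ, wt p w * ‖deriv f w‖ₑ ^ p ≤ J := by
      apply lintegral_mono_set
      apply Ann_anti
      exact mul_le_of_le_one_left hρ0 hs1.le
    have e3 : ∫⁻ w in Ann ρ, wt p w * ‖deriv f (s * w)‖ₑ ^ p ≤ 4 * J := by
      refine (scaling hp.le hs00 hs1.le ρ (fun u => ‖deriv f u‖ₑ ^ p)).trans ?_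
      gcongr
      have : (s ^ 2)⁻¹ ≤ 4 := by
        rw [inv_le_comm₀ (by positivity) (by norm_num)]
        nlinarith
      calc ENNReal.ofReal (s ^ 2)⁻¹ ≤ ENNReal.ofReal 4 := ENNReal.ofReal_le_ofReal this
        _ = 4 := by simp
    have e4 : ENNReal.ofReal (K / (1 - s)) ^ p * ENNReal.ofReal ((1 - s) ^ p)
        = ENNReal.ofReal K ^ p := by
      rw [← ENNReal.ofReal_rpow_of_nonneg hs.le hp0, ← ENNReal.mul_rpow_of_nonneg _ _ hp0,
        ← ENNReal.ofReal_mul (by positivity)]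
      congr 2
      field_simp
    calc (3 : ℝ≥0∞) ^ p * (ENNReal.ofReal (K / (1 - s)) ^ p *
              (∫⁻ w in Ann ρ, wt p w * ‖f w - f (s * w)‖ₑ ^ p)
          + (ENNReal.ofReal K ^ p * (∫⁻ w in Ann ρ, wt p w * ‖deriv f w‖ₑ ^ p)
            + ENNReal.ofReal K ^ p * (∫⁻ w in Ann ρ, wt p w * ‖deriv f (s * w)‖ₑ ^ p)))
        ≤ 3 ^ p * (ENNReal.ofReal (K / (1 - s)) ^ p * (ENNReal.ofReal ((1 - s) ^ p) * (4 * J))
          + (ENNReal.ofReal K ^ p * J + ENNReal.ofReal K ^ p * (4 * J))) := by gcongr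
      _ = 3 ^ p * (ENNReal.ofReal K ^ p * 9) * J := by
          rw [← mul_assoc (ENNReal.ofReal (K / (1 - s)) ^ p), e4]
          ring
  · intro ρ hρ0 hρ1
    obtain ⟨M1, hM1, hM1a, hM1b⟩ := loc_lip hf hρ1
    obtain ⟨M2, hM2, hM2a, hM2b⟩ := loc_lip (hf.deriv Metric.isOpen_ball) hρ1
    refine ⟨K / (1 - ρ) * M1 + K * (M2 + M1), ?_⟩
    intro s hs0 hs1 w hw
    have hw1 : ‖w‖ < 1 := hw.trans_lt hρ1
    have hρ' : 0 < 1 - ρ := by linarith
    have hsw := sw_mem (by linarith : (0:ℝ) ≤ s) hs1.le hw1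
    have hnsw : ‖(s : ℂ) * w‖ ≤ ρ := by
      rw [norm_mul, Complex.norm_real, Real.norm_of_nonneg (by linarith)]
      exact (mul_le_of_le_one_left (norm_nonneg w) hs1.le).trans hw
    rw [deriv_T hf hφ (by linarith) hs1.le hw1]
    have h1 : ‖(s : ℂ) * deriv φ (s * w)‖ ≤ K / (1 - ρ) := by
      rw [norm_mul, Complex.norm_real, Real.norm_of_nonneg (by linarith), le_div_iff₀ hρ']
      have h2 := deriv_bound hφ hK (z := s * w) (by simpa using hsw)
      calc s * ‖deriv φ (s * w)‖ * (1 - ρ) ≤ 1 * ‖deriv φ (s * w)‖ * (1 - ‖(s : ℂ) * w‖) := by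
            gcongr
        _ ≤ K := by rw [one_mul]; exact h2
    have h2 : ‖φ (s * w)‖ ≤ K := hK _ hsw
    have h3 : ‖f w - f (s * w)‖ ≤ M1 * (1 - s) := hM1b s (by linarith) hs1.le w hw
    have h4 : ‖deriv f w - s * deriv f (s * w)‖ ≤ (M2 + M1) * (1 - s) := by
      have e : deriv f w - s * deriv f (s * w)
          = (deriv f w - deriv f (s * w)) + ((1 - s : ℝ) : ℂ) * deriv f (s * w) := by
        push_cast; ring
      rw [e]
      refine (norm_add_le _ _).trans ?_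
      rw [norm_mul, Complex.norm_real, Real.norm_of_nonneg (by linarith)]
      have h5 := hM2b s (by linarith) hs1.le w hw
      have h6 := hM1a _ hnsw
      nlinarith [mul_le_mul_of_nonneg_left h6 (by linarith : (0:ℝ) ≤ 1 - s)]
    calc ‖(s : ℂ) * deriv φ (s * w) * (f w - f (s * w))
          + φ (s * w) * (deriv f w - s * deriv f (s * w))‖
        ≤ ‖(s : ℂ) * deriv φ (s * w)‖ * ‖f w - f (s * w)‖
          + ‖φ (s * w)‖ * ‖deriv f w - s * deriv f (s * w)‖ := by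
          refine (norm_add_le _ _).trans ?_
          rw [norm_mul, norm_mul (φ _)]
      _ ≤ K / (1 - ρ) * (M1 * (1 - s)) + K * ((M2 + M1) * (1 - s)) := by gcongr
      _ = _ := by ring

end Pool.Agent.X106.DP
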