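import Pool.Agent.X106.DP.MainLem

/-!
# The norm of `D^p_{p-1}`, energy estimate, Taylor approximation
-/

set_option autoImplicit false

namespace Pool.Agent.X106.DP
open MeasureTheory Filter Topology Complex Set
open scoped ENNReal


/-- weighted `L^p` norm -/
noncomputable def LP (p : ℝ) (g : ℂ → ℂ) : ℝ≥0∞ := (∫⁻ z in (Metric.ball (0 : ℂ) 1), wt p z * ‖g z‖ₑ ^ p) ^ (1 / p)

/-- the norm of `D^p_{p-1}` -/
noncomputable def NN (p : ℝ) (f : ℂ → ℂ) : ℝ≥0∞ := ‖f 0‖ₑ + LP p (deriv f)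

lemma wt_fact {p : ℝ} (hp : 1 ≤ p) (z : ℂ) (x : ℝ≥0∞) :
    wt p z * x ^ p = (wt p z ^ (1 / p) * x) ^ p := by
  rw [ENNReal.mul_rpow_of_nonneg _ _ (by linarith), ← ENNReal.rpow_mul,
    one_div_mul_cancel (by linarith), ENNReal.rpow_one]

lemma LP_mono {p : ℝ} (hp : 1 ≤ p) {g h : ℂ → ℂ} (H : ∀ z ∈ (Metric.ball (0 : ℂ) 1), ‖g z‖ₑ ≤ ‖h z‖ₑ) :
    LP p g ≤ LP p h := by
  unfold LP
  apply ENNReal.rpow_le_rpow _ (by positivity)
  refine setLIntegral_mono' measurableSet_ball fun z hz => ?_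
  gcongr
  exact H z hz

lemma LP_congr {p : ℝ} {g h : ℂ → ℂ} (H : ∀ z ∈ (Metric.ball (0 : ℂ) 1), g z = h z) : LP p g = LP p h := by
  unfold LP
  congr 1
  refine setLIntegral_congr_fun measurableSet_ball fun z hz => ?_
  simp only [H z hz]

lemma LP_add {p : ℝ} (hp : 1 ≤ p) {g h : ℂ → ℂ} (hg : ContinuousOn g (Metric.ball (0 : ℂ) 1)) (hh : ContinuousOn h (Metric.ball (0 : ℂ) 1)) :
    LP p (fun z => g z + h z) ≤ LP p g + LP p h := by
  unfold LP
  simp only [wt_fact hp]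
  have m1 : AEMeasurable (fun z => wt p z ^ (1 / p) * ‖g z‖ₑ) (volume.restrict (Metric.ball (0 : ℂ) 1)) :=
    ((measurable_wt p).pow_const _).aemeasurable.mul
      (hg.aestronglyMeasurable measurableSet_ball).enorm
  have m2 : AEMeasurable (fun z => wt p z ^ (1 / p) * ‖h z‖ₑ) (volume.restrict (Metric.ball (0 : ℂ) 1)) :=
    ((measurable_wt p).pow_const _).aemeasurable.mul
      (hh.aestronglyMeasurable measurableSet_ball).enorm
  refine le_trans ?_ (ENNReal.lintegral_Lp_add_le m1 m2 hp)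
  apply ENNReal.rpow_le_rpow _ (by positivity)
  refine lintegral_mono fun z => ?_
  apply ENNReal.rpow_le_rpow _ (by positivity)
  simp only [Pi.add_apply]
  rw [← mul_add]
  gcongr
  exact enorm_add_le _ _

lemma LP_const_mul {p : ℝ} (hp : 1 ≤ p) {g h : ℂ → ℂ} {c : ℝ≥0∞} (hc : c ≠ ⊤)
    (H : ∀ z ∈ (Metric.ball (0 : ℂ) 1), ‖g z‖ₑ ≤ c * ‖h z‖ₑ) : LP p g ≤ c * LP p h := by
  have hp0 : p ≠ 0 := by linarith
  unfold LP
  have : c = (c ^ p) ^ (1 / p) := by
    rw [← ENNReal.rpow_mul, mul_one_div_cancel hp0, ENNReal.rpow_one]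
  conv_rhs => rw [this]
  rw [← ENNReal.mul_rpow_of_nonneg _ _ (by positivity)]
  apply ENNReal.rpow_le_rpow _ (by positivity)
  rw [← lintegral_const_mul' _ _ (ENNReal.rpow_ne_top_of_nonneg (by linarith) hc)]
  refine setLIntegral_mono' measurableSet_ball fun z hz => ?_
  calc wt p z * ‖g z‖ₑ ^ p ≤ wt p z * (c * ‖h z‖ₑ) ^ p := by
        gcongr
        exact H z hz
    _ = _ := by
        rw [ENNReal.mul_rpow_of_nonneg _ _ (by linarith)]
        ring

lemma NN_add {p : ℝ} (hp : 1 ≤ p) {g h : ℂ → ℂ} (hg : DifferentiableOn ℂ g (Metric.ball (0 : ℂ) 1))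
    (hh : DifferentiableOn ℂ h (Metric.ball (0 : ℂ) 1)) : NN p (fun z => g z + h z) ≤ NN p g + NN p h := by
  unfold NN
  have h1 : ∀ z ∈ (Metric.ball (0 : ℂ) 1), deriv (fun z => g z + h z) z = deriv g z + deriv h z := by
    intro z hz
    exact ((hg.differentiableAt (Metric.isOpen_ball.mem_nhds hz)).hasDerivAt.add
      (hh.differentiableAt (Metric.isOpen_ball.mem_nhds hz)).hasDerivAt).deriv
  rw [LP_congr h1]
  have h2 := LP_add hp (hg.deriv Metric.isOpen_ball).continuousOn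
    (hh.deriv Metric.isOpen_ball).continuousOn
  calc ‖g 0 + h 0‖ₑ + LP p (fun z => deriv g z + deriv h z)
      ≤ (‖g 0‖ₑ + ‖h 0‖ₑ) + (LP p (deriv g) + LP p (deriv h)) := by
        gcongr
        exact enorm_add_le _ _
    _ = _ := by ring

lemma NN_neg {p : ℝ} (g : ℂ → ℂ) : NN p (fun z => -g z) = NN p g := by
  unfold NN LP
  have : deriv (fun z => -g z) = fun z => -deriv g z := by
    funext z; exact deriv.fun_neg
  rw [this]
  simp only [enorm_neg]

/-- bounded functions have small norm if their value at `0` is close to `1` -/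
lemma energy_p {p : ℝ} (hp : 2 < p) {h : ℂ → ℂ} (hd : DifferentiableOn ℂ h (Metric.ball (0 : ℂ) 1))
    (hb : ∀ z ∈ (Metric.ball (0 : ℂ) 1), ‖h z‖ ≤ 1) :
    ∫⁻ z in (Metric.ball (0 : ℂ) 1), wt p z * ‖deriv h z‖ₑ ^ p ≤ ENNReal.ofReal (2 * (1 - ‖h 0‖ ^ 2)) := by
  refine le_trans ?_ (energy hd hb)
  refine setLIntegral_mono' measurableSet_ball fun z hz => ?_
  have hz1 : ‖z‖ < 1 := by simpa using hz
  have h1 := deriv_bound hd hb hz1
  have e1 : ‖deriv h z‖ₑ ^ p = ENNReal.ofReal (‖deriv h z‖ ^ p) := by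
    rw [← ofReal_norm, ENNReal.ofReal_rpow_of_nonneg (norm_nonneg _) (by linarith)]
  have e2 : ‖deriv h z‖ₑ ^ 2 = ENNReal.ofReal (‖deriv h z‖ ^ 2) := by
    rw [ENNReal.ofReal_pow (norm_nonneg _), ofReal_norm]
  have hz2 : 0 < 1 - ‖z‖ := by linarith
  unfold wt
  rw [e1, e2, ← ENNReal.ofReal_mul (by positivity), ← ENNReal.ofReal_mul hz2.le]
  apply ENNReal.ofReal_le_ofReal
  set a := ‖deriv h z‖ with ha
  have ha0 : 0 ≤ a := norm_nonneg _
  rcases ha0.eq_or_lt with h0 | h0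
  · rw [← h0, Real.zero_rpow (by linarith)]; simp
  have e3 : (1 - ‖z‖) ^ (p - 1) = (1 - ‖z‖) ^ (p - 2) * (1 - ‖z‖) := by
    rw [← Real.rpow_add_one hz2.ne']; congr 1; ring
  have e4 : a ^ p = a ^ (p - 2) * a ^ 2 := by
    rw [← Real.rpow_natCast a 2, ← Real.rpow_add h0]; congr 1; push_cast; ring
  rw [e3, e4]
  have e5 : (1 - ‖z‖) ^ (p - 2) * a ^ (p - 2) ≤ 1 := by
    rw [← Real.mul_rpow hz2.le ha0]
    apply Real.rpow_le_one (by positivity) _ (by linarith)
    linarith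
  calc (1 - ‖z‖) ^ (p - 2) * (1 - ‖z‖) * (a ^ (p - 2) * a ^ 2)
      = ((1 - ‖z‖) ^ (p - 2) * a ^ (p - 2)) * ((1 - ‖z‖) * a ^ 2) := by ring
    _ ≤ 1 * ((1 - ‖z‖) * a ^ 2) := by gcongr
    _ = _ := one_mul _

/-- Taylor approximation of a dilate -/
lemma taylor {φ : ℂ → ℂ} (hφ : DifferentiableOn ℂ φ (Metric.ball (0 : ℂ) 1)) {s : ℝ} (hs0 : 0 ≤ s) (hs1 : s < 1)
    {η : ℝ} (hη : 0 < η) :
    ∃ q : Polynomial ℂ, ∀ z ∈ (Metric.ball (0 : ℂ) 1), ‖q.eval z - φ (s * z)‖ ≤ η ∧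
      ‖q.derivative.eval z - s * deriv φ (s * z)‖ ≤ η := by
  have ps := isPS_tc hφ
  have hφ' : DifferentiableOn ℂ (deriv φ) (Metric.ball (0 : ℂ) 1) := hφ.deriv Metric.isOpen_ball
  have ps' := isPS_tc hφ'
  have hs : ∀ z ∈ (Metric.ball (0 : ℂ) 1), ‖(s : ℂ) * z‖ ≤ s := by
    intro z hz
    have hz1 : ‖z‖ < 1 := by simpa using hz
    rw [norm_mul, Complex.norm_real, Real.norm_of_nonneg hs0]
    exact mul_le_of_le_one_right hs0 hz1.le
  -- uniform remainder estimate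
  have rem : ∀ (a : ℕ → ℂ) (g : ℂ → ℂ), IsPS a g → ∀ᶠ N in atTop, ∀ z ∈ (Metric.ball (0 : ℂ) 1),
      ‖∑ n ∈ Finset.range N, a n * (s * z) ^ n - g (s * z)‖ ≤ η := by
    intro a g hag
    have hsum := hag.summable_norm hs0 hs1
    have ht : Tendsto (fun N => ∑' n, ‖a (n + N)‖ * s ^ (n + N)) atTop (𝓝 0) :=
      tendsto_sum_nat_add (fun n => ‖a n‖ * s ^ n)
    filter_upwards [ht.eventually_lt_const hη] with N hN z hz
    have hmem : (s : ℂ) * z ∈ (Metric.ball (0 : ℂ) 1) := by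
      rw [mem_ball_zero_iff]; exact (hs z hz).trans_lt hs1
    have h1 := hag _ hmem
    have h2 : ∑' n, a (n + N) * (s * z) ^ (n + N)
        = g (s * z) - ∑ n ∈ Finset.range N, a n * (s * z) ^ n := by
      rw [← h1.tsum_eq, ← h1.summable.sum_add_tsum_nat_add N]
      ring
    rw [norm_sub_rev, ← h2]
    refine le_trans ?_ hN.le
    refine tsum_of_norm_bounded (((summable_nat_add_iff N).2 hsum).hasSum) ?_
    intro n
    rw [norm_mul, norm_pow]
    gcongr
    exact hs z hz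
  have r1 := (tendsto_add_atTop_nat 1).eventually (rem _ _ ps)
  have r2 := rem _ _ ps'
  obtain ⟨N, hN1, hN2⟩ := (r1.and r2).exists
  refine ⟨∑ n ∈ Finset.range (N + 1), Polynomial.monomial n (tc φ n * s ^ n), ?_⟩
  intro z hz
  refine ⟨?_, ?_⟩
  · have := hN1 z hz
    rw [Polynomial.eval_finsetSum]
    simp only [Polynomial.eval_monomial]
    convert this using 4 with n
    rw [mul_pow]; ring
  · have h3 := hN2 z hz
    have e : (∑ n ∈ Finset.range (N + 1), Polynomial.monomial n (tc φ n * (s : ℂ) ^ n)).derivative.eval z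
        = s * ∑ n ∈ Finset.range N, tc (deriv φ) n * (s * z) ^ n := by
      rw [Polynomial.derivative_sum, Polynomial.eval_finsetSum, Finset.sum_range_succ']
      simp only [Polynomial.derivative_monomial, Polynomial.eval_monomial]
      rw [Finset.mul_sum]
      simp only [Nat.cast_zero, mul_zero, zero_mul, add_zero]
      refine Finset.sum_congr rfl fun n _ => ?_
      rw [tc_deriv, Nat.add_sub_cancel]
      push_cast
      ring
    rw [e, ← mul_sub, norm_mul, Complex.norm_real, Real.norm_of_nonneg hs0]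
    calc s * _ ≤ 1 * _ := by gcongr
      _ ≤ η := by rw [one_mul]; exact h3

/-- functions in `D^p_{p-1}` are in the weighted `L^p` space -/
lemma LP_self {p : ℝ} (hp : 1 < p) {f : ℂ → ℂ} (hf : DifferentiableOn ℂ f (Metric.ball (0 : ℂ) 1))
    (hfin : ∫⁻ z in (Metric.ball (0 : ℂ) 1), wt p z * ‖deriv f z‖ₑ ^ p ≠ ⊤) : LP p f ≠ ⊤ := by
  have hp0 : (0 : ℝ) ≤ p := by linarith
  have hfc := hf.continuousOn
  have hfs : ContinuousOn (fun z => f ((1/2 : ℝ) * z)) (Metric.ball (0 : ℂ) 1) := by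
    refine hfc.comp (by fun_prop) ?_
    intro z hz
    exact sw_mem (by norm_num) (by norm_num) (by simpa using hz)
  have h1 := diff_est hp hf (s := 1/2) le_rfl (by norm_num) (ρ := 0) le_rfl
  rw [mul_zero, Ann_zero] at h1
  have h2 : LP p (fun z => f z - f ((1/2 : ℝ) * z)) ≠ ⊤ := by
    unfold LP
    refine ENNReal.rpow_ne_top_of_nonneg (by positivity) ?_
    refine ne_top_of_le_ne_top ?_ h1
    exact ENNReal.mul_ne_top ENNReal.ofReal_ne_top (ENNReal.mul_ne_top (by norm_num) hfin)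
  have h3 : LP p (fun z => f ((1/2 : ℝ) * z)) ≠ ⊤ := by
    obtain ⟨M, hM⟩ := (isCompact_closedBall (0 : ℂ) (1/2)).exists_bound_of_continuousOn
      (hfc.mono (Metric.closedBall_subset_ball (by norm_num)))
    unfold LP
    refine ENNReal.rpow_ne_top_of_nonneg (by positivity) ?_
    have : ∫⁻ z in (Metric.ball (0 : ℂ) 1), wt p z * ‖f ((1/2 : ℝ) * z)‖ₑ ^ p
        ≤ ∫⁻ z in (Metric.ball (0 : ℂ) 1), ENNReal.ofReal M ^ p := by
      refine setLIntegral_mono' measurableSet_ball fun z hz => ?_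
      have hz1 : ‖z‖ < 1 := by simpa using hz
      calc wt p z * ‖f ((1/2 : ℝ) * z)‖ₑ ^ p ≤ 1 * ENNReal.ofReal M ^ p := by
            gcongr
            · exact wt_le_one hp.le hz1
            · rw [← ofReal_norm]
              apply ENNReal.ofReal_le_ofReal
              apply hM
              rw [mem_closedBall_zero_iff, norm_mul, Complex.norm_real,
                Real.norm_of_nonneg (by norm_num)]
              nlinarith
        _ = _ := one_mul _
    refine ne_top_of_le_ne_top ?_ this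
    rw [setLIntegral_const]
    exact ENNReal.mul_ne_top (ENNReal.rpow_ne_top_of_nonneg hp0 ENNReal.ofReal_ne_top)
      measure_ball_lt_top.ne
  have h4 := LP_add hp.le (hfc.sub hfs) hfs
  have h5 : (fun z => (f - fun z => f ((1/2 : ℝ) * z)) z + f ((1/2 : ℝ) * z)) = f := by
    funext z; simp
  rw [h5] at h4
  refine ne_top_of_le_ne_top (ENNReal.add_ne_top.2 ⟨?_, h3⟩) h4
  exact h2

end Pool.Agent.X106.DP
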