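import Mathlib

/-!
# Power series on the unit disc: area and circle forms of Parseval's identity
-/

set_option autoImplicit false

namespace Pool.Agent.X106.DP
open MeasureTheory Filter Topology Complex ComplexConjugate Finset

/-- orthogonality of monomials -/
lemma integral_mono_ne {m n : ℕ} (h : m ≠ n) (ρ : ℝ) :
    ∫ z in Metric.ball (0 : ℂ) ρ, z ^ m * conj z ^ n = 0 := by
  have hmn : ((m : ℂ) - n) ≠ 0 := by
    rw [sub_ne_zero]; exact_mod_cast h
  set a : ℝ := Real.pi / ((m : ℝ) - n) with ha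
  set c : Circle := Circle.exp a with hc
  have hmp : MeasurePreserving (rotation c) (volume : Measure ℂ) volume :=
    (rotation c).measurePreserving
  have hpre : (rotation c) ⁻¹' (Metric.ball (0 : ℂ) ρ) = Metric.ball (0 : ℂ) ρ := by
    ext z; simp only [Set.mem_preimage, mem_ball_zero_iff, LinearIsometryEquiv.norm_map]
  have h1 := hmp.setIntegral_preimage_emb (rotation c).toHomeomorph.measurableEmbedding
    (fun z : ℂ => z ^ m * conj z ^ n) (Metric.ball (0 : ℂ) ρ)
  rw [hpre] at h1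
  have h2 : ∀ z : ℂ, (rotation c z) ^ m * conj (rotation c z) ^ n = (-1) * (z ^ m * conj z ^ n) := by
    intro z
    have hcc : (c : ℂ) ^ m * (conj (c : ℂ)) ^ n = -1 := by
      rw [hc, Circle.coe_exp, ← Complex.exp_conj, ← Complex.exp_nat_mul, ← Complex.exp_nat_mul,
        ← Complex.exp_add, ← Complex.exp_pi_mul_I]
      congr 1
      simp only [map_mul, conj_ofReal, conj_I, ha]
      push_cast
      field_simp
      ring
    rw [rotation_apply, map_mul, mul_pow, mul_pow]
    calc (c : ℂ) ^ m * z ^ m * ((conj (c : ℂ)) ^ n * (conj z) ^ n)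
        = ((c : ℂ) ^ m * (conj (c : ℂ)) ^ n) * (z ^ m * conj z ^ n) := by ring
      _ = _ := by rw [hcc]
  simp only [h2] at h1
  rw [integral_const_mul] at h1
  linear_combination (-1/2 : ℂ) * h1

lemma integral_mono_eq (n : ℕ) {ρ : ℝ} (hρ : 0 ≤ ρ) :
    ∫ z in Metric.ball (0 : ℂ) ρ, z ^ n * conj z ^ n
      = ((Real.pi * ρ ^ (2 * n + 2) / (n + 1) : ℝ) : ℂ) := by
  have h0 : ∀ z : ℂ, z ^ n * conj z ^ n = ((‖z‖ ^ (2 * n) : ℝ) : ℂ) := by
    intro z
    rw [← mul_pow, Complex.mul_conj, Complex.normSq_eq_norm_sq, pow_mul]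
    push_cast; ring
  simp only [h0]
  rw [integral_complex_ofReal]
  congr 1
  rw [← integral_indicator measurableSet_ball]
  have h1 : ∀ z : ℂ, (Metric.ball (0 : ℂ) ρ).indicator (fun z : ℂ => ‖z‖ ^ (2 * n)) z
      = (fun y : ℝ => (Set.Iio ρ).indicator (fun y : ℝ => y ^ (2 * n)) y) ‖z‖ := by
    intro z
    by_cases hz : ‖z‖ < ρ
    · simp [Set.indicator, hz]
    · simp [Set.indicator, hz]
  simp only [h1]
  have := integral_fun_norm_addHaar (volume : Measure ℂ)
    (fun y : ℝ => (Set.Iio ρ).indicator (fun y : ℝ => y ^ (2 * n)) y)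
  rw [this]
  have hdim : Module.finrank ℝ ℂ = 2 := Complex.finrank_real_complex
  have hvol : (volume : Measure ℂ).real (Metric.ball 0 1) = Real.pi := by
    rw [Measure.real, Complex.volume_ball]; simp
  rw [hdim, hvol]
  have h2 : ∫ y in Set.Ioi (0 : ℝ), y ^ (2 - 1) • (Set.Iio ρ).indicator (fun y : ℝ => y ^ (2 * n)) y
      = ρ ^ (2 * n + 2) / (2 * n + 2) := by
    have h3 : ∀ y : ℝ, y ^ (2 - 1) • (Set.Iio ρ).indicator (fun y : ℝ => y ^ (2 * n)) y
        = (Set.Iio ρ).indicator (fun y : ℝ => y ^ (2 * n + 1)) y := by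
      intro y
      by_cases hy : y < ρ
      · simp [Set.indicator, hy]; ring
      · simp [Set.indicator, hy]
    simp only [h3]
    rw [integral_indicator measurableSet_Iio, Measure.restrict_restrict measurableSet_Iio,
      Set.Iio_inter_Ioi, ← integral_Ioc_eq_integral_Ioo, ← intervalIntegral.integral_of_le hρ,
      integral_pow]
    push_cast
    simp
    ring
  rw [h2]
  simp only [smul_eq_mul, nsmul_eq_mul]
  field_simp
  ring


/-- `f` is the sum of the power series with coefficients `a` on the unit disc. -/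
def IsPS (a : ℕ → ℂ) (f : ℂ → ℂ) : Prop :=
  ∀ z ∈ Metric.ball (0 : ℂ) 1, HasSum (fun n => a n * z ^ n) (f z)

lemma IsPS.summable_norm {a : ℕ → ℂ} {f : ℂ → ℂ} (h : IsPS a f) {ρ : ℝ} (h0 : 0 ≤ ρ)
    (h1 : ρ < 1) : Summable (fun n => ‖a n‖ * ρ ^ n) := by
  have hm : ((ρ : ℝ) : ℂ) ∈ Metric.ball (0 : ℂ) 1 := by
    simp [abs_of_nonneg h0, h1]
  have := (h _ hm).summable.norm
  refine this.congr fun n => ?_
  simp [abs_of_nonneg h0]

lemma IsPS.differentiableOn {a : ℕ → ℂ} {f : ℂ → ℂ} (h : IsPS a f) :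
    DifferentiableOn ℂ f (Metric.ball (0 : ℂ) 1) := by
  intro z hz
  have hz' : ‖z‖ < 1 := by simpa using hz
  obtain ⟨ρ, hρ1, hρ2⟩ := exists_between hz'
  have hρ0 : 0 ≤ ρ := (norm_nonneg z).trans hρ1.le
  have hd : DifferentiableOn ℂ (fun w => ∑' n, a n * w ^ n) (Metric.ball (0 : ℂ) ρ) := by
    refine Complex.differentiableOn_tsum_of_summable_norm (h.summable_norm hρ0 hρ2)
      (fun n => by fun_prop) Metric.isOpen_ball ?_
    intro n w hw
    have hw' : ‖w‖ < ρ := by simpa using hw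
    rw [norm_mul, norm_pow]
    gcongr
  have hz2 : z ∈ Metric.ball (0 : ℂ) ρ := by simpa using hρ1
  have hd2 := (hd z hz2).differentiableAt (Metric.isOpen_ball.mem_nhds hz2)
  refine (hd2.congr_of_eventuallyEq ?_).differentiableWithinAt
  filter_upwards [Metric.isOpen_ball.mem_nhds hz] with w hw
  exact (h w hw).tsum_eq.symm

/-- Taylor coefficients -/
noncomputable def tc (f : ℂ → ℂ) (n : ℕ) : ℂ := ((n.factorial : ℂ))⁻¹ * iteratedDeriv n f 0

lemma isPS_tc {f : ℂ → ℂ} (hf : DifferentiableOn ℂ f (Metric.ball (0 : ℂ) 1)) :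
    IsPS (tc f) f := by
  intro z hz
  have := Complex.hasSum_taylorSeries_on_ball hf hz
  have h2 : (fun n : ℕ => ((n.factorial : ℂ))⁻¹ • (z - 0) ^ n • iteratedDeriv n f 0)
      = fun n : ℕ => tc f n * z ^ n := by
    funext n
    simp only [smul_eq_mul, sub_zero, tc]
    ring
  rw [h2] at this
  exact this

lemma tc_deriv (f : ℂ → ℂ) (n : ℕ) : tc (deriv f) n = ((n : ℂ) + 1) * tc f (n + 1) := by
  unfold tc
  rw [← iteratedDeriv_succ', Nat.factorial_succ]
  have h1 : ((n : ℂ) + 1) ≠ 0 := by exact_mod_cast Nat.succ_ne_zero n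
  have h2 : (n.factorial : ℂ) ≠ 0 := by exact_mod_cast n.factorial_ne_zero
  push_cast
  field_simp

lemma tc_zero (f : ℂ → ℂ) : tc f 0 = f 0 := by simp [tc]

lemma ball_sub {ρ : ℝ} (h1 : ρ < 1) : Metric.ball (0 : ℂ) ρ ⊆ Metric.ball (0 : ℂ) 1 :=
  Metric.ball_subset_ball h1.le

lemma IsPS.aesm' {a : ℕ → ℂ} {f : ℂ → ℂ} (h : IsPS a f) {ρ : ℝ} (h1 : ρ < 1) :
    AEStronglyMeasurable f (volume.restrict (Metric.ball (0 : ℂ) ρ)) :=
  (h.differentiableOn.continuousOn.mono (ball_sub h1)).aestronglyMeasurable measurableSet_ball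

lemma IsPS.norm_le {a : ℕ → ℂ} {f : ℂ → ℂ} (h : IsPS a f) {ρ : ℝ} (h0 : 0 ≤ ρ)
    (h1 : ρ < 1) {z : ℂ} (hz : z ∈ Metric.ball (0 : ℂ) ρ) : ‖f z‖ ≤ ∑' n, ‖a n‖ * ρ ^ n := by
  have hz' : ‖z‖ < ρ := by simpa using hz
  rw [← (h z (ball_sub h1 hz)).tsum_eq]
  refine tsum_of_norm_bounded (h.summable_norm h0 h1).hasSum ?_
  intro n
  rw [norm_mul, norm_pow]
  gcongr

instance finBall (ρ : ℝ) : IsFiniteMeasure (volume.restrict (Metric.ball (0 : ℂ) ρ)) :=
  ⟨by rw [Measure.restrict_apply_univ]; exact measure_ball_lt_top⟩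

lemma IsPS.pair_mono {b : ℕ → ℂ} {g : ℂ → ℂ} (h : IsPS b g) {ρ : ℝ} (h0 : 0 ≤ ρ)
    (h1 : ρ < 1) (n : ℕ) :
    ∫ z in Metric.ball (0 : ℂ) ρ, z ^ n * conj (g z)
      = conj (b n) * ((Real.pi * ρ ^ (2 * n + 2) / (n + 1) : ℝ) : ℂ) := by
  have key : HasSum (fun m => ∫ z in Metric.ball (0 : ℂ) ρ, z ^ n * conj (b m * z ^ m))
      (∫ z in Metric.ball (0 : ℂ) ρ, z ^ n * conj (g z)) := by
    refine hasSum_integral_of_dominated_convergence (fun m _ => ‖b m‖ * ρ ^ m) ?_ ?_ ?_ ?_ ?_
    · intro m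
      exact Continuous.aestronglyMeasurable (by fun_prop)
    · intro m
      filter_upwards [ae_restrict_mem measurableSet_ball] with z hz
      have hz' : ‖z‖ < ρ := by simpa using hz
      have hz1 : ‖z‖ ≤ 1 := (hz'.trans h1).le
      rw [norm_mul, norm_pow, RCLike.norm_conj, norm_mul, norm_pow]
      calc ‖z‖ ^ n * (‖b m‖ * ‖z‖ ^ m) ≤ 1 * (‖b m‖ * ρ ^ m) := by
            gcongr
            exact pow_le_one₀ (norm_nonneg z) hz1
        _ = _ := one_mul _
    · exact ae_of_all _ fun _ => h.summable_norm h0 h1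
    · exact integrable_const _
    · filter_upwards [ae_restrict_mem measurableSet_ball] with z hz
      have := (h z (ball_sub h1 hz))
      exact (Complex.hasSum_conj'.2 this).mul_left (z ^ n)
  have h2 : ∀ m, m ≠ n → ∫ z in Metric.ball (0 : ℂ) ρ, z ^ n * conj (b m * z ^ m) = 0 := by
    intro m hm
    have : ∀ z : ℂ, z ^ n * conj (b m * z ^ m) = conj (b m) * (z ^ n * conj z ^ m) := by
      intro z; simp only [map_mul, map_pow]; ring
    simp only [this]
    rw [integral_const_mul, integral_mono_ne hm.symm, mul_zero]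
  have h3 := (hasSum_single n h2).unique key
  rw [← h3]
  have : ∀ z : ℂ, z ^ n * conj (b n * z ^ n) = conj (b n) * (z ^ n * conj z ^ n) := by
    intro z; simp only [map_mul, map_pow]; ring
  simp only [this]
  rw [integral_const_mul, integral_mono_eq n h0]

lemma IsPS.pair {a b : ℕ → ℂ} {f g : ℂ → ℂ} (ha : IsPS a f) (hb : IsPS b g) {ρ : ℝ}
    (h0 : 0 ≤ ρ) (h1 : ρ < 1) :
    HasSum (fun n => a n * conj (b n) * ((Real.pi * ρ ^ (2 * n + 2) / (n + 1) : ℝ) : ℂ))
      (∫ z in Metric.ball (0 : ℂ) ρ, f z * conj (g z)) := by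
  set C : ℝ := ∑' n, ‖b n‖ * ρ ^ n with hC
  have key : HasSum (fun m => ∫ z in Metric.ball (0 : ℂ) ρ, (a m * z ^ m) * conj (g z))
      (∫ z in Metric.ball (0 : ℂ) ρ, f z * conj (g z)) := by
    refine hasSum_integral_of_dominated_convergence (fun m _ => (‖a m‖ * ρ ^ m) * C) ?_ ?_ ?_ ?_ ?_
    · intro m
      exact (Continuous.aestronglyMeasurable (by fun_prop)).mul
        (continuous_conj.comp_aestronglyMeasurable (hb.aesm' h1))
    · intro m
      filter_upwards [ae_restrict_mem measurableSet_ball] with z hz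
      have hz' : ‖z‖ < ρ := by simpa using hz
      have := hb.norm_le h0 h1 hz
      rw [norm_mul, RCLike.norm_conj, norm_mul, norm_pow]
      gcongr
    · exact ae_of_all _ fun _ => (ha.summable_norm h0 h1).mul_right C
    · exact integrable_const _
    · filter_upwards [ae_restrict_mem measurableSet_ball] with z hz
      exact (ha z (ball_sub h1 hz)).mul_right _
  have h2 : (fun m => ∫ z in Metric.ball (0 : ℂ) ρ, (a m * z ^ m) * conj (g z))
      = fun n => a n * conj (b n) * ((Real.pi * ρ ^ (2 * n + 2) / (n + 1) : ℝ) : ℂ) := by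
    funext m
    have : ∀ z : ℂ, (a m * z ^ m) * conj (g z) = a m * (z ^ m * conj (g z)) := by
      intro z; ring
    simp only [this]
    rw [integral_const_mul, hb.pair_mono h0 h1]
    ring
  rw [h2] at key
  exact key

lemma mul_conj_self (w : ℂ) : w * conj w = ((‖w‖ ^ 2 : ℝ) : ℂ) := by
  rw [Complex.mul_conj, Complex.normSq_eq_norm_sq]

lemma IsPS.sq_ball {a : ℕ → ℂ} {f : ℂ → ℂ} (ha : IsPS a f) {ρ : ℝ} (h0 : 0 ≤ ρ) (h1 : ρ < 1) :
    HasSum (fun n => ‖a n‖ ^ 2 * (Real.pi * ρ ^ (2 * n + 2) / (n + 1)))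
      (∫ z in Metric.ball (0 : ℂ) ρ, ‖f z‖ ^ 2) := by
  have h := ha.pair ha h0 h1
  simp only [mul_conj_self] at h
  rw [integral_complex_ofReal] at h
  have h2 : (fun n => ((‖a n‖ ^ 2 : ℝ) : ℂ) * ((Real.pi * ρ ^ (2 * n + 2) / (n + 1) : ℝ) : ℂ))
      = fun n => ((‖a n‖ ^ 2 * (Real.pi * ρ ^ (2 * n + 2) / (n + 1)) : ℝ) : ℂ) := by
    funext n; push_cast; ring
  rw [h2] at h
  exact_mod_cast h

/-! ## Parseval's identity on circles -/

/-- mean value property, real part -/
lemma avg_re (Q : ℂ → ℂ) (r : ℝ) (hc : ContinuousOn Q (Metric.sphere 0 |r|))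
    (hQ : DiffContOnCl ℂ Q (Metric.ball 0 |r|)) :
    Real.circleAverage (fun z => (Q z).re) 0 r = (Q 0).re := by
  have hi : CircleIntegrable Q 0 r := hc.circleIntegrable'
  have h1 := hQ.circleAverage
  have h2 := Complex.reCLM.circleAverage_comp_comm hi
  rw [h1] at h2
  exact h2

lemma circ_int_cont (f : ℂ → ℝ) (hf : Continuous f) (r : ℝ) : CircleIntegrable f 0 r :=
  ContinuousOn.circleIntegrable' hf.continuousOn

lemma avg_add3 (f g : ℂ → ℝ) (hf : Continuous f) (hg : Continuous g) (c r : ℝ) :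
    Real.circleAverage (fun z => f z + g z + c) 0 r
      = Real.circleAverage f 0 r + Real.circleAverage g 0 r + c := by
  have h1 := Real.circleAverage_fun_add (circ_int_cont _ (hf.add hg) r)
    (circ_int_cont (fun _ => c) continuous_const r)
  have h2 := Real.circleAverage_fun_add (circ_int_cont _ hf r) (circ_int_cont _ hg r)
  rw [Real.circleAverage_const] at h1
  simp only [Pi.add_apply] at h1 h2 ⊢
  rw [h1, ← h2]
  rfl

lemma parseval_fin (p : ℕ → ℂ) (r : ℝ) (N : ℕ) :
    Real.circleAverage (fun z => ‖∑ n ∈ range N, p n * z ^ n‖ ^ 2) 0 r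
      = ∑ n ∈ range N, ‖p n‖ ^ 2 * (r ^ 2) ^ n := by
  induction N with
  | zero =>
    simp only [Finset.range_zero, Finset.sum_empty, norm_zero]
    rw [Real.circleAverage_const]
    simp
  | succ N ih =>
    rw [Finset.sum_range_succ (n := N) (f := fun n => ‖p n‖ ^ 2 * (r ^ 2) ^ n), ← ih]
    set Q : ℂ → ℂ := fun z => p N * ∑ n ∈ range N, (starRingEnd ℂ) (p n) * ((r : ℂ) ^ 2) ^ n * z ^ (N - n) with hQ
    have hQd : Differentiable ℂ Q := by
      rw [hQ]
      fun_prop
    have hQ0 : Q 0 = 0 := by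
      rw [hQ]
      simp only
      rw [Finset.sum_eq_zero, mul_zero]
      intro n hn
      have : N - n ≠ 0 := by
        have := Finset.mem_range.mp hn
        omega
      rw [zero_pow this, mul_zero]
    have havg : Real.circleAverage (fun z => (Q z).re) 0 r = 0 := by
      rw [avg_re Q r hQd.continuous.continuousOn hQd.diffContOnCl, hQ0]
      simp
    have hpt : Set.EqOn (fun z : ℂ => ‖∑ n ∈ range (N + 1), p n * z ^ n‖ ^ 2)
        (fun z => (‖∑ n ∈ range N, p n * z ^ n‖ ^ 2 + 2 * (Q z).re) + ‖p N‖ ^ 2 * (r ^ 2) ^ N)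
        (Metric.sphere 0 |r|) := by
      intro z hz
      have hz1 : ‖z‖ = |r| := by simpa using hz
      have hz2 : (starRingEnd ℂ) z * z = (r : ℂ) ^ 2 := by
        rw [Complex.conj_mul', hz1]
        rw [← Complex.ofReal_pow, sq_abs, Complex.ofReal_pow]
      simp only
      rw [Finset.sum_range_succ]
      have h1 : (starRingEnd ℂ) (∑ n ∈ range N, p n * z ^ n) * (p N * z ^ N) = Q z := by
        rw [hQ]
        simp only
        rw [map_sum, Finset.sum_mul, Finset.mul_sum]
        apply Finset.sum_congr rfl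
        intro n hn
        have hn' : n < N := Finset.mem_range.mp hn
        rw [map_mul, map_pow, ← hz2, mul_pow]
        have : z ^ N = z ^ n * z ^ (N - n) := by
          rw [← pow_add]
          congr 1
          omega
        rw [this]
        ring
      have h2 : ∀ x y : ℂ, ‖x + y‖ ^ 2 = ‖x‖ ^ 2 + 2 * ((starRingEnd ℂ) x * y).re + ‖y‖ ^ 2 := by
        intro x y
        simp only [← Complex.normSq_eq_norm_sq, Complex.normSq_apply, Complex.mul_re,
          Complex.conj_re, Complex.conj_im, Complex.add_re, Complex.add_im]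
        ring
      rw [h2, h1, norm_mul, norm_pow, hz1, mul_pow, ← pow_mul, mul_comm N 2, pow_mul, sq_abs]
    rw [Real.circleAverage_congr_sphere hpt]
    have hc1 : Continuous (fun z : ℂ => ‖∑ n ∈ range N, p n * z ^ n‖ ^ 2) := by fun_prop
    have hc2 : Continuous (fun z : ℂ => 2 * (Q z).re) := by
      have := hQd.continuous
      fun_prop
    rw [avg_add3 _ _ hc1 hc2]
    have : Real.circleAverage (fun z : ℂ => 2 * (Q z).re) 0 r = 0 := by
      have h := Real.circleAverage_fun_smul (a := (2 : ℝ)) (f := fun z : ℂ => (Q z).re) (c := 0) (R := r)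
      simp only [smul_eq_mul] at h
      rw [h, havg]
      simp
    rw [this]
    ring

/-- the coefficients of a function bounded by `1` are square summable, with sum at most `1` -/
lemma sum_sq_le_one {a : ℕ → ℂ} {f : ℂ → ℂ} (h : IsPS a f)
    (hf : ∀ z ∈ Metric.ball (0 : ℂ) 1, ‖f z‖ ≤ 1) (N : ℕ) :
    ∑ n ∈ range N, ‖a n‖ ^ 2 ≤ 1 := by
  have key : ∀ r : ℝ, 0 ≤ r → r < 1 → ∑ n ∈ range N, ‖a n‖ ^ 2 * (r ^ 2) ^ n ≤ 1 := by
    intro r h0 h1
    have hmem : ∀ θ : ℝ, ‖circleMap 0 r θ‖ = r := by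
      intro θ
      rw [norm_circleMap_zero, abs_of_nonneg h0]
    have hlim : Tendsto (fun M : ℕ =>
        Real.circleAverage (fun z => ‖∑ n ∈ range M, a n * z ^ n‖ ^ 2) 0 r)
        atTop (𝓝 (Real.circleAverage (fun z => ‖f z‖ ^ 2) 0 r)) := by
      unfold Real.circleAverage
      apply Tendsto.const_smul
      apply intervalIntegral.tendsto_integral_filter_of_dominated_convergence
        (fun _ => (∑' n, ‖a n‖ * r ^ n) ^ 2)
      · filter_upwards with M
        apply Continuous.aestronglyMeasurable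
        fun_prop
      · filter_upwards with M
        filter_upwards with θ _
        rw [Real.norm_of_nonneg (by positivity)]
        apply pow_le_pow_left₀ (norm_nonneg _)
        refine (norm_sum_le _ _).trans ?_
        have : ∀ n, ‖a n * circleMap 0 r θ ^ n‖ = ‖a n‖ * r ^ n := by
          intro n; rw [norm_mul, norm_pow, hmem]
        simp only [this]
        exact (h.summable_norm h0 h1).sum_le_tsum _ (fun n _ => by positivity)
      · exact intervalIntegrable_const
      · filter_upwards with θ _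
        have hb : circleMap 0 r θ ∈ Metric.ball (0 : ℂ) 1 := by
          simpa [abs_of_nonneg h0] using h1
        exact ((h _ hb).tendsto_sum_nat.norm).pow 2
    simp only [parseval_fin] at hlim
    have hmono : Monotone (fun M : ℕ => ∑ n ∈ range M, ‖a n‖ ^ 2 * (r ^ 2) ^ n) := by
      intro M M' hM
      exact Finset.sum_le_sum_of_subset_of_nonneg (by simpa using hM)
        (fun _ _ _ => by positivity)
    have h2 := hmono.ge_of_tendsto hlim N
    refine h2.trans ?_
    have h3 : Real.circleAverage (fun z => ‖f z‖ ^ 2) 0 r ≤ 1 := by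
      have hci : CircleIntegrable (fun z => ‖f z‖ ^ 2) 0 r := by
        apply ContinuousOn.circleIntegrable h0
        have hsub : Metric.sphere (0 : ℂ) r ⊆ Metric.ball (0 : ℂ) 1 := by
          intro z hz
          have : ‖z‖ = r := by simpa using hz
          simpa [this] using h1
        exact ((h.differentiableOn.continuousOn.mono hsub).norm).pow 2
      apply Real.circleAverage_mono_on_of_le_circle hci
      intro z hz
      have hz1 : ‖z‖ = |r| := by simpa using hz
      have hb : z ∈ Metric.ball (0 : ℂ) 1 := by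
        simpa [hz1, abs_of_nonneg h0] using h1
      exact pow_le_one₀ (norm_nonneg _) (hf z hb)
    exact h3
  have hlim : Tendsto (fun r : ℝ => ∑ n ∈ range N, ‖a n‖ ^ 2 * (r ^ 2) ^ n) (𝓝[<] 1)
      (𝓝 (∑ n ∈ range N, ‖a n‖ ^ 2 * ((1 : ℝ) ^ 2) ^ n)) := by
    apply Tendsto.mono_left _ nhdsWithin_le_nhds
    apply Continuous.tendsto
    fun_prop
  have h4 : ∑ n ∈ range N, ‖a n‖ ^ 2 * ((1 : ℝ) ^ 2) ^ n ≤ 1 := by
    refine le_of_tendsto hlim ?_
    have : Set.Ioo (0 : ℝ) 1 ∈ 𝓝[<] (1 : ℝ) := Ioo_mem_nhdsLT (by norm_num)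
    filter_upwards [this] with r hr
    exact key r hr.1.le hr.2
  simpa using h4

end Pool.Agent.X106.DP
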