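import Pool.Agent.X106.DP.Energy

/-!
# Scaling and difference estimates for the weight `(1-|z|)^(p-1)`
-/

set_option autoImplicit false

namespace Pool.Agent.X106.DP
open MeasureTheory Filter Topology Complex Set
open scoped ENNReal

/-- the weight `(1-|z|)^(p-1)` -/
noncomputable def wt (p : ℝ) (z : ℂ) : ℝ≥0∞ := ENNReal.ofReal ((1 - ‖z‖) ^ (p - 1))

/-- the annulus `ρ ≤ |z| < 1` -/
def Ann (ρ : ℝ) : Set ℂ := {z | ρ ≤ ‖z‖ ∧ ‖z‖ < 1}

lemma measurable_wt (p : ℝ) : Measurable (wt p) := by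
  unfold wt
  fun_prop

lemma measurableSet_Ann (ρ : ℝ) : MeasurableSet (Ann ρ) := by
  have : Ann ρ = Metric.ball (0 : ℂ) 1 \ Metric.ball (0 : ℂ) ρ := by
    ext z; simp [Ann]; tauto
  rw [this]
  exact measurableSet_ball.diff measurableSet_ball

lemma Ann_anti {a b : ℝ} (h : a ≤ b) : Ann b ⊆ Ann a := fun _ hz => ⟨h.trans hz.1, hz.2⟩

lemma Ann_sub (a : ℝ) : Ann a ⊆ Metric.ball (0 : ℂ) 1 := fun z hz => by simpa using hz.2

lemma Ann_zero : Ann 0 = Metric.ball (0 : ℂ) 1 := by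
  ext z; simp [Ann]

lemma wt_le_one {p : ℝ} (hp : 1 ≤ p) {z : ℂ} (hz : ‖z‖ < 1) : wt p z ≤ 1 := by
  unfold wt
  rw [ENNReal.ofReal_le_one]
  exact Real.rpow_le_one (by linarith) (by linarith [norm_nonneg z]) (by linarith)

lemma wt_mono {p : ℝ} (hp : 1 ≤ p) {z w : ℂ} (hz : ‖z‖ < 1) (h : ‖w‖ ≤ ‖z‖) : wt p z ≤ wt p w := by
  unfold wt
  apply ENNReal.ofReal_le_ofReal
  exact Real.rpow_le_rpow (by linarith) (by linarith) (by linarith)

/-- scaling -/
lemma scaling {p : ℝ} (hp : 1 ≤ p) {t : ℝ} (ht0 : 0 < t) (ht1 : t ≤ 1) (ρ : ℝ) (G : ℂ → ℝ≥0∞) :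
    ∫⁻ w in Ann ρ, wt p w * G (t * w)
      ≤ ENNReal.ofReal (t ^ 2)⁻¹ * ∫⁻ u in Ann (t * ρ), wt p u * G u := by
  rw [← lintegral_indicator (measurableSet_Ann ρ), ← lintegral_indicator (measurableSet_Ann _)]
  have h1 : ∀ w, (Ann ρ).indicator (fun w => wt p w * G (t * w)) w
      ≤ (Ann (t*ρ)).indicator (fun u => wt p u * G u) (t • w) := by
    intro w
    by_cases hw : w ∈ Ann ρ
    · have hn : ‖t • w‖ = t * ‖w‖ := by rw [norm_smul, Real.norm_of_nonneg ht0.le]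
      have hn2 : t * ‖w‖ ≤ ‖w‖ := mul_le_of_le_one_left (norm_nonneg w) ht1
      have h2 : t • w ∈ Ann (t*ρ) := by
        refine ⟨?_, ?_⟩
        · rw [hn]; exact mul_le_mul_of_nonneg_left hw.1 ht0.le
        · rw [hn]; exact hn2.trans_lt hw.2
      rw [indicator_of_mem hw, indicator_of_mem h2]
      simp only [Complex.real_smul]
      gcongr
      apply wt_mono hp hw.2
      rw [← Complex.real_smul, hn]
      exact hn2
    · rw [indicator_of_notMem hw]; exact zero_le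
  refine (lintegral_mono h1).trans ?_
  have hmap := Measure.map_addHaar_smul (volume : Measure ℂ) ht0.ne'
  have h3 := lintegral_map_equiv (μ := (volume : Measure ℂ))
    ((Ann (t*ρ)).indicator (fun u => wt p u * G u))
    ((Homeomorph.smulOfNeZero t ht0.ne').toMeasurableEquiv)
  have h4 : ((Homeomorph.smulOfNeZero t ht0.ne').toMeasurableEquiv : ℂ → ℂ) = fun z => t • z := rfl
  rw [h4] at h3
  rw [← h3]
  have h5 : Measure.map (fun z : ℂ => t • z) volume
    = ENNReal.ofReal |(t ^ Module.finrank ℝ ℂ)⁻¹| • (volume : Measure ℂ) := hmap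
  rw [h5, lintegral_smul_measure, Complex.finrank_real_complex, abs_of_nonneg (by positivity)]
  rfl

/-- Jensen / Hölder -/
lemma jensen {p : ℝ} (hp : 1 < p) {s : ℝ} (hs : s < 1) {g : ℝ → ℝ≥0∞} (hg : Measurable g) :
    (∫⁻ t in Ioc s 1, g t) ^ p
      ≤ ENNReal.ofReal ((1 - s) ^ (p - 1)) * ∫⁻ t in Ioc s 1, g t ^ p := by
  have hpq := Real.HolderConjugate.conjExponent hp
  have h1 := ENNReal.lintegral_mul_le_Lp_mul_Lq (volume.restrict (Ioc s 1)) hpq
    (f := g) (g := fun _ => 1) hg.aemeasurable aemeasurable_const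
  simp only [Pi.mul_apply, mul_one, ENNReal.one_rpow, lintegral_const, one_mul,
    Measure.restrict_apply_univ, Real.volume_Ioc] at h1
  have h2 := ENNReal.rpow_le_rpow h1 (by linarith : (0 : ℝ) ≤ p)
  refine h2.trans (le_of_eq ?_)
  have hp0 : p ≠ 0 := by linarith
  rw [ENNReal.mul_rpow_of_nonneg _ _ (by linarith), ← ENNReal.rpow_mul, ← ENNReal.rpow_mul,
    one_div_mul_cancel hp0, ENNReal.rpow_one, mul_comm]
  congr 1
  have h3 : 1 / p.conjExponent * p = p - 1 := by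
    rw [Real.conjExponent]
    have : p - 1 ≠ 0 := by linarith
    field_simp
  rw [h3, ENNReal.ofReal_rpow_of_pos (by linarith)]

lemma ftc {f : ℂ → ℂ} (hf : DifferentiableOn ℂ f (Metric.ball 0 1)) {w : ℂ} (hw : ‖w‖ < 1)
    {s : ℝ} (hs0 : 0 ≤ s) (hs1 : s ≤ 1) :
    ‖f w - f (s * w)‖ₑ ≤ ∫⁻ t in Ioc s 1, ‖deriv f (t * w)‖ₑ := by
  have hmem : ∀ t ∈ Icc s 1, ((t : ℝ) : ℂ) * w ∈ Metric.ball (0 : ℂ) 1 := by
    intro t ht
    rw [mem_ball_zero_iff, norm_mul, Complex.norm_real, Real.norm_of_nonneg (hs0.trans ht.1)]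
    exact (mul_le_of_le_one_left (norm_nonneg w) ht.2).trans_lt hw
  have hd : ∀ t ∈ uIcc s 1, HasDerivAt (fun t : ℝ => f ((t : ℂ) * w)) (deriv f (t * w) * w) t := by
    intro t ht
    rw [uIcc_of_le hs1] at ht
    have h1 : HasDerivAt f (deriv f (t * w)) (t * w) :=
      (hf.differentiableAt (Metric.isOpen_ball.mem_nhds (hmem t ht))).hasDerivAt
    have h2 : HasDerivAt (fun u : ℂ => u * w) w (t : ℂ) := by
      simpa using (hasDerivAt_id (t : ℂ)).mul_const w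
    exact (h1.comp (t : ℂ) h2).comp_ofReal
  have hc : ContinuousOn (fun t : ℝ => deriv f (t * w) * w) (uIcc s 1) := by
    rw [uIcc_of_le hs1]
    refine ContinuousOn.mul ?_ continuousOn_const
    exact (hf.deriv Metric.isOpen_ball).continuousOn.comp (by fun_prop) hmem
  have h3 := intervalIntegral.integral_eq_sub_of_hasDerivAt hd hc.intervalIntegrable
  have h4 : f w - f (s * w) = ∫ t in Ioc s 1, deriv f (t * w) * w := by
    rw [← intervalIntegral.integral_of_le hs1, h3]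
    simp
  rw [h4]
  refine (enorm_integral_le_lintegral_enorm _).trans ?_
  refine lintegral_mono fun t => ?_
  rw [enorm_mul]
  have : ‖w‖ₑ ≤ 1 := by
    rw [← ofReal_norm, ENNReal.ofReal_le_one]; exact hw.le
  exact mul_le_of_le_one_right zero_le this

lemma diff_est {p : ℝ} (hp : 1 < p) {f : ℂ → ℂ} (hf : DifferentiableOn ℂ f (Metric.ball 0 1))
    {s : ℝ} (hs0 : 1/2 ≤ s) (hs1 : s < 1) {ρ : ℝ} (hρ : 0 ≤ ρ) :
    ∫⁻ w in Ann ρ, wt p w * ‖f w - f (s * w)‖ₑ ^ p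
      ≤ ENNReal.ofReal ((1 - s) ^ p) * (4 * ∫⁻ u in Ann (s * ρ), wt p u * ‖deriv f u‖ₑ ^ p) := by
  have hmd : Measurable (deriv f) := measurable_deriv f
  have h1 : ∀ w ∈ Ann ρ, wt p w * ‖f w - f (s * w)‖ₑ ^ p
      ≤ ENNReal.ofReal ((1 - s) ^ (p - 1)) * ∫⁻ t in Ioc s 1, wt p w * ‖deriv f (t * w)‖ₑ ^ p := by
    intro w hw
    have h2 := ENNReal.rpow_le_rpow (ftc hf hw.2 (by linarith) hs1.le) (by linarith : (0 : ℝ) ≤ p)
    have h3 := jensen hp hs1 (g := fun t : ℝ => ‖deriv f (t * w)‖ₑ)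
      ((hmd.comp (by fun_prop)).enorm)
    rw [lintegral_const_mul' _ _ (by unfold wt; exact ENNReal.ofReal_ne_top)]
    calc wt p w * ‖f w - f (s * w)‖ₑ ^ p
        ≤ wt p w * (ENNReal.ofReal ((1 - s) ^ (p - 1)) * ∫⁻ t in Ioc s 1, ‖deriv f (t * w)‖ₑ ^ p) := by
          gcongr
          exact h2.trans h3
      _ = _ := by ring
  refine (setLIntegral_mono' (measurableSet_Ann ρ) h1).trans ?_
  rw [lintegral_const_mul' _ _ ENNReal.ofReal_ne_top]
  have hmeas : Measurable (Function.uncurry fun (w : ℂ) (t : ℝ) =>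
      wt p w * ‖deriv f (t * w)‖ₑ ^ p) := by
    apply Measurable.mul
    · exact (measurable_wt p).comp measurable_fst
    · exact ((hmd.comp (by fun_prop)).enorm).pow_const p
  rw [lintegral_lintegral_swap hmeas.aemeasurable]
  set J := ∫⁻ u in Ann (s * ρ), wt p u * ‖deriv f u‖ₑ ^ p with hJ
  have h5 : ∀ t ∈ Ioc s 1, ∫⁻ w in Ann ρ, wt p w * ‖deriv f (t * w)‖ₑ ^ p ≤ 4 * J := by
    intro t ht
    have ht0 : 0 < t := by linarith [ht.1]
    refine (scaling hp.le ht0 ht.2 ρ (fun u => ‖deriv f u‖ₑ ^ p)).trans ?_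
    gcongr
    · have : (t ^ 2)⁻¹ ≤ 4 := by
        rw [inv_le_comm₀ (by positivity) (by norm_num)]
        nlinarith [ht.1]
      calc ENNReal.ofReal (t ^ 2)⁻¹ ≤ ENNReal.ofReal 4 := ENNReal.ofReal_le_ofReal this
        _ = 4 := by simp
    · exact lintegral_mono_set (Ann_anti (mul_le_mul_of_nonneg_right ht.1.le hρ))
  have h6 : ∫⁻ t in Ioc s 1, ∫⁻ w in Ann ρ, wt p w * ‖deriv f (t * w)‖ₑ ^ p
      ≤ ENNReal.ofReal (1 - s) * (4 * J) := by
    refine (setLIntegral_mono' measurableSet_Ioc h5).trans ?_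
    rw [lintegral_const, Measure.restrict_apply_univ, Real.volume_Ioc, mul_comm]
  calc ENNReal.ofReal ((1 - s) ^ (p - 1)) * _
      ≤ ENNReal.ofReal ((1 - s) ^ (p - 1)) * (ENNReal.ofReal (1 - s) * (4 * J)) := by gcongr
    _ = ENNReal.ofReal ((1 - s) ^ p) * (4 * J) := by
      rw [← mul_assoc, ← ENNReal.ofReal_mul (by positivity)]
      congr 2
      have : (1 - s) ^ (p - 1) * (1 - s) = (1 - s) ^ (p - 1 + 1) := by
        rw [Real.rpow_add_one (by linarith)]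
      rw [this]; congr 1; ring

end Pool.Agent.X106.DP
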